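import Pool.Agent.Helper8.PL.Formula

/-!
The Bass–Tate lemma: traces of residues of logarithmic Jacobians are logarithmic Jacobians.
-/

namespace LF.BT

open Polynomial
open MvPolynomial (finSuccEquiv pderiv totalDegree)

universe u

variable {k : Type u} [Field k] {n M : ℕ}

section TRlemmas

variable {L : Type u} [Field L] {φ : Pol k M →+* L} (hφ : Function.Injective φ)
  (a : Fin n → Fin M) {π : Pol k (M + 1)} (hπ : Irreducible π)
  (hd : 0 < (finSuccEquiv k M π).natDegree) (g : Fin n → Pol k (M + 1)) (i : Fin n)

include hφ hπ hd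

theorem TR_update_mul {u v : Pol k (M + 1)} (hu : ¬ π ∣ u) (hv : ¬ π ∣ v) :
    TR φ a π (Function.update g i (u * v)) =
      TR φ a π (Function.update g i u) + TR φ a π (Function.update g i v) := by
  unfold TR
  rw [← Finset.sum_add_distrib]
  apply Finset.sum_congr rfl
  intro ζ hζ
  rw [rho_update_mul (ext φ ζ) a π g i (ext_ne_zero hφ hπ hd hu hζ) (ext_ne_zero hφ hπ hd hv hζ),
    add_div]

theorem TR_update_mod {u v q : Pol k (M + 1)} (huv : u = v + π * q) (hv : ¬ π ∣ v) :
    TR φ a π (Function.update g i u) = TR φ a π (Function.update g i v) := by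
  unfold TR
  apply Finset.sum_congr rfl
  intro ζ hζ
  have h0 : ext φ ζ π = 0 :=
    (mem_rts φ ζ (map_ne_zero_of_injective φ hφ hπ.ne_zero)).mp hζ
  rw [rho_update_mod (ext φ ζ) a π g i huv h0 (ext_ne_zero hφ hπ hd hv hζ)]

theorem TR_associated {i j : Fin n} (hij : i ≠ j) {c : k} (hc : c ≠ 0)
    (hgj : g j = g i * MvPolynomial.C c) (hgi : ¬ π ∣ g i) : TR φ a π g = 0 := by
  unfold TR
  apply Finset.sum_eq_zero
  intro ζ hζ
  have hC : ext φ ζ (MvPolynomial.C c) ≠ 0 := by
    have : IsUnit (MvPolynomial.C c : Pol k (M + 1)) := (isUnit_iff_ne_zero.mpr hc).map _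
    exact (this.map (ext φ ζ)).ne_zero
  rw [rho_eq_zero_of_lr_eq (ext φ ζ) a π g hij, zero_div]
  rw [hgj, lr_mul _ _ (ext_ne_zero hφ hπ hd hgi hζ) hC, lr_C, add_zero]

end TRlemmas

theorem TR_update_C {L : Type u} [Field L] (φ : Pol k M →+* L) (a : Fin n → Fin M)
    (π : Pol k (M + 1)) (g : Fin n → Pol k (M + 1)) (i : Fin n) (c : k) :
    TR φ a π (Function.update g i (MvPolynomial.C c)) = 0 := by
  unfold TR
  apply Finset.sum_eq_zero
  intro ζ _
  rw [rho_update_C, zero_div]

variable (k) in
/-- integral combinations of logarithmic Jacobians of polynomials of degree at most `d` -/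
noncomputable def PLz (a : Fin n → Fin M) (d : ℕ) : Submodule ℤ (Fr k M) :=
  Submodule.span ℤ {x | ∃ f : Fin n → Pol k M, (∀ i, f i ≠ 0) ∧ (∀ i, (f i).totalDegree ≤ d) ∧
    x = J (algebraMap (Pol k M) (Fr k M)) a f}

/-- The trace of the residue is an integral combination of logarithmic Jacobians of degree at
most `D`. -/
def GoodT (a : Fin n → Fin M) (D : ℕ) (π : Pol k (M + 1)) (g : Fin n → Pol k (M + 1)) : Prop :=
  ∃ x ∈ PLz k a D, ∀ (Ω : Type u) [Field Ω] [IsAlgClosed Ω] (φ : Pol k M →+* Ω)
    (hφ : Function.Injective φ), TR φ a π g = IsFractionRing.lift hφ x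

section Good

variable {a : Fin n → Fin M} {D : ℕ} {π : Pol k (M + 1)} (hπ : Irreducible π)
  (hd : 0 < (finSuccEquiv k M π).natDegree) {g : Fin n → Pol k (M + 1)} {i : Fin n}

theorem GoodT.of_zero
    (h : ∀ (Ω : Type u) [Field Ω] [IsAlgClosed Ω] (φ : Pol k M →+* Ω)
      (_ : Function.Injective φ), TR φ a π g = 0) : GoodT a D π g :=
  ⟨0, Submodule.zero_mem _, fun Ω _ _ φ hφ => by rw [h Ω φ hφ, map_zero]⟩

include hπ hd

theorem GoodT.mul {u v : Pol k (M + 1)} (hu : ¬ π ∣ u) (hv : ¬ π ∣ v)
    (h1 : GoodT a D π (Function.update g i u)) (h2 : GoodT a D π (Function.update g i v)) :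
    GoodT a D π (Function.update g i (u * v)) := by
  obtain ⟨x, hx, hx'⟩ := h1
  obtain ⟨y, hy, hy'⟩ := h2
  refine ⟨x + y, Submodule.add_mem _ hx hy, fun Ω _ _ φ hφ => ?_⟩
  rw [TR_update_mul hφ a hπ hd g i hu hv, hx' Ω φ hφ, hy' Ω φ hφ, map_add]

theorem GoodT.cancel {u v : Pol k (M + 1)} (hu : ¬ π ∣ u) (hv : ¬ π ∣ v)
    (h1 : GoodT a D π (Function.update g i u)) (h2 : GoodT a D π (Function.update g i (u * v))) :
    GoodT a D π (Function.update g i v) := by
  obtain ⟨x, hx, hx'⟩ := h1
  obtain ⟨y, hy, hy'⟩ := h2
  refine ⟨y - x, Submodule.sub_mem _ hy hx, fun Ω _ _ φ hφ => ?_⟩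
  rw [map_sub, ← hx' Ω φ hφ, ← hy' Ω φ hφ, TR_update_mul hφ a hπ hd g i hu hv]
  ring

theorem GoodT.mod {u v q : Pol k (M + 1)} (huv : u = v + π * q) (hv : ¬ π ∣ v)
    (h : GoodT a D π (Function.update g i v)) : GoodT a D π (Function.update g i u) := by
  obtain ⟨x, hx, hx'⟩ := h
  refine ⟨x, hx, fun Ω _ _ φ hφ => ?_⟩
  rw [TR_update_mod hφ a hπ hd g i huv hv, hx' Ω φ hφ]

omit hd in
theorem not_dvd_mul {u v : Pol k (M + 1)} (hu : ¬ π ∣ u) (hv : ¬ π ∣ v) : ¬ π ∣ u * v := by
  intro h
  rcases (UniqueFactorizationMonoid.irreducible_iff_prime.mp hπ).dvd_or_dvd h with h | h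
  · exact hu h
  · exact hv h

omit hd in
theorem not_dvd_pow {u : Pol k (M + 1)} (hu : ¬ π ∣ u) (s : ℕ) : ¬ π ∣ u ^ s := fun h =>
  hu ((UniqueFactorizationMonoid.irreducible_iff_prime.mp hπ).dvd_of_dvd_pow h)

theorem GoodT.pow {u : Pol k (M + 1)} (hu : ¬ π ∣ u)
    (h : GoodT a D π (Function.update g i u)) (s : ℕ) :
    GoodT a D π (Function.update g i (u ^ s)) := by
  induction s with
  | zero =>
    apply GoodT.of_zero
    intro Ω _ _ φ hφ
    rw [pow_zero, ← MvPolynomial.C_1]
    exact TR_update_C φ a π g i 1
  | succ s ih =>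
    rw [pow_succ]
    exact GoodT.mul hπ hd (not_dvd_pow hπ hu s) hu ih h

end Good

theorem PLz_mono (a : Fin n → Fin M) {d d' : ℕ} (h : d ≤ d') : PLz k a d ≤ PLz k a d' := by
  apply Submodule.span_mono
  rintro x ⟨f, h1, h2, rfl⟩
  exact ⟨f, h1, fun i => (h2 i).trans h, rfl⟩

theorem lift_J {L : Type u} [Field L] {φ : Pol k M →+* L} (hφ : Function.Injective φ)
    (a : Fin n → Fin M) (f : Fin n → Pol k M) :
    IsFractionRing.lift hφ (J (algebraMap (Pol k M) (Fr k M)) a f) = J φ a f := by
  have h1 : J (algebraMap (Pol k M) (Fr k M)) a f =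
    (Matrix.of fun i => lr (algebraMap (Pol k M) (Fr k M)) a (f i)).det := rfl
  have h2 : J φ a f = (Matrix.of fun i => lr φ a (f i)).det := rfl
  rw [h1, h2, RingHom.map_det]
  congr 1
  ext i j
  simp only [RingHom.mapMatrix_apply, Matrix.map_apply, Matrix.of_apply]
  unfold lr
  rw [map_div₀, IsFractionRing.lift_algebraMap, IsFractionRing.lift_algebraMap]

/-- entrywise induction -/
theorem entrywise {α : Type*} (Q Q' : α → Prop) (good : (Fin n → α) → Prop)
    (h0 : ∀ g, (∀ i, Q' (g i)) → good g)
    (hstep : ∀ (g : Fin n → α) (i : Fin n),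
      (∀ x, Q' x → good (Function.update g i x)) → ∀ x, Q x → good (Function.update g i x)) :
    ∀ g, (∀ i, Q (g i) ∨ Q' (g i)) → good g := by
  classical
  have key : ∀ (s : Finset (Fin n)) (g : Fin n → α), (∀ i ∉ s, Q' (g i)) →
      (∀ i ∈ s, Q (g i)) → good g := by
    intro s
    induction s using Finset.induction_on with
    | empty => intro g h _; exact h0 g fun i => h i (by simp)
    | insert i s hi ih =>
      intro g h1 h2
      have := hstep g i (fun x hx => ih (Function.update g i x) (by
        intro j hj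
        by_cases hji : j = i
        · subst hji; simpa using hx
        · rw [Function.update_of_ne hji]
          exact h1 j (by simp [hji, hj])) (by
        intro j hj
        have hji : j ≠ i := by rintro rfl; exact hi hj
        rw [Function.update_of_ne hji]
        exact h2 j (Finset.mem_insert_of_mem hj))) (g i) (h2 i (Finset.mem_insert_self _ _))
      rwa [Function.update_eq_self] at this
  intro g hg
  apply key (Finset.univ.filter fun i => ¬ Q' (g i)) g
  · intro i hi
    by_contra h
    exact hi (by simp [h])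
  · intro i hi
    rw [Finset.mem_filter] at hi
    exact (hg i).resolve_right hi.2

/-- the degree bound -/
def dPL : ℕ → ℕ → ℕ
  | 0, d => d
  | e + 1, d => dPL e ((d + 1) ^ 2)

theorem le_dPL : ∀ (e d : ℕ), d ≤ dPL e d
  | 0, _ => le_rfl
  | e + 1, d => by
    have h1 : d ≤ (d + 1) ^ 2 := by nlinarith
    exact h1.trans (le_dPL e _)

theorem bassTate_aux [CharZero k] : ∀ (e : ℕ) (d : ℕ) (π : Pol k (M + 1))
    (a : Fin n → Fin M) (g : Fin n → Pol k (M + 1)),
    Irreducible π → 0 < (finSuccEquiv k M π).natDegree → (finSuccEquiv k M π).natDegree ≤ e →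
    (∀ i, ¬ π ∣ g i) → π.totalDegree ≤ d → (∀ i, (g i).totalDegree ≤ d) →
    GoodT a (dPL e d) π g := by
  classical
  intro e
  induction e with
  | zero => intro d π a g _ h1 h2; omega
  | succ e ih =>
    intro d π a g hπ hd hde hg hπd hgd
    set d1 := (d + 1) ^ 2 with hd1
    have hdd1 : d ≤ d1 := by rw [hd1]; nlinarith
    change GoodT a (dPL e d1) π g
    -- step A
    have hA : ∀ g : Fin n → Pol k (M + 1),
        (∀ i, Irreducible (g i) ∧ (finSuccEquiv k M (g i)).natDegree <
          (finSuccEquiv k M π).natDegree ∧ (g i).totalDegree ≤ d1) → GoodT a (dPL e d1) π g := by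
      intro g hg
      have hgπ : ∀ i, ¬ π ∣ g i := fun i => not_dvd_of_natDegree (hg i).1.ne_zero (hg i).2.1
      by_cases hass : ∃ i j, i ≠ j ∧ g i ∣ g j
      · obtain ⟨i, j, hij, hdvd⟩ := hass
        obtain ⟨c, hc⟩ := hdvd
        have hcu : IsUnit c := by
          rcases (hg j).1.isUnit_or_isUnit hc with h | h
          · exact absurd h (hg i).1.not_isUnit
          · exact h
        obtain ⟨c', hc', rfl⟩ := MvPolynomial.isUnit_iff_eq_C_of_isReduced.mp hcu
        apply GoodT.of_zero
        intro Ω _ _ φ hφ
        exact TR_associated hφ a hπ hd g hij hc'.ne_zero hc (hgπ i)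
      · push Not at hass
        set f : Fin (n + 1) → Pol k (M + 1) := Fin.cons π g with hf
        have hf0 : f 0 = π := rfl
        have hfs : ∀ i : Fin n, f i.succ = g i := fun i => rfl
        have hfirr : ∀ i, Irreducible (f i) := by
          intro i
          refine Fin.cases ?_ (fun i => ?_) i
          · exact hπ
          · exact (hg i).1
        have hfd1 : ∀ i, (f i).totalDegree ≤ d1 := by
          intro i
          refine Fin.cases ?_ (fun i => ?_) i
          · exact hπd.trans hdd1
          · exact (hg i).2.2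
        have hfne : ∀ i j, i ≠ j → ¬ f i ∣ f j := by
          intro i j
          refine Fin.cases ?_ (fun i => ?_) i <;> refine Fin.cases ?_ (fun j => ?_) j
          · intro h; exact absurd rfl h
          · intro _; exact hgπ j
          · intro _ hdvd
            obtain ⟨c, hc⟩ := hdvd
            rw [hf0, hfs] at hc
            have hcu : IsUnit c := by
              rcases hπ.isUnit_or_isUnit hc with h | h
              · exact absurd h (hg i).1.not_isUnit
              · exact h
            have : Associated (g i) π := ⟨hcu.unit, by rw [hc]; rfl⟩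
            exact hgπ i this.dvd'
          · intro hij
            exact hass i j fun h => hij (by rw [h])
        have hpos : 0 < ∑ i, (finSuccEquiv k M (f i)).natDegree := by
          rw [Fin.sum_univ_succ]
          exact Nat.add_pos_left hd _
        -- the other traces
        have hother : ∀ i : Fin n, GoodT a (dPL e d1) (f i.succ)
            (fun j => f (i.succ.succAbove j)) := by
          intro i
          rcases Nat.eq_zero_or_pos (finSuccEquiv k M (f i.succ)).natDegree with h0 | h0
          · apply GoodT.of_zero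
            intro Ω _ _ φ hφ
            unfold TR
            apply Finset.sum_eq_zero
            intro ζ hζ
            exfalso
            have hne := map_ne_zero_of_injective φ hφ (hfirr i.succ).ne_zero
            rw [mem_rts φ ζ hne, ext_apply] at hζ
            have h3 : ((finSuccEquiv k M (f i.succ)).map φ).natDegree = 0 :=
              (natDegree_map_eq_of_injective hφ _).trans h0
            rw [eq_C_of_natDegree_eq_zero h3] at hζ hne
            rw [eval_C] at hζ
            rw [hζ, C_0] at hne
            exact hne rfl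
          · apply ih d1 (f i.succ) a _ (hfirr _) h0
            · have := (hg i).2.1
              rw [hfs]; omega
            · intro j
              exact hfne _ _ (Fin.succAbove_ne _ _).symm
            · exact hfd1 _
            · intro j; exact hfd1 _
        choose x hx hxT using hother
        refine ⟨∑ i : Fin (n + 1), ((-1) ^ (i : ℕ) * ((finSuccEquiv k M (f i)).natDegree : ℤ)) •
            J (algebraMap (Pol k M) (Fr k M)) a
              (fun j => (finSuccEquiv k M (f (i.succAbove j))).leadingCoeff) -
            ∑ i : Fin n, ((-1) ^ (i.succ : ℕ) : ℤ) • x i, ?_, ?_⟩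
        · apply Submodule.sub_mem
          · apply Submodule.sum_mem
            intro i _
            apply Submodule.smul_mem
            apply PLz_mono a (le_dPL e d1)
            apply Submodule.subset_span
            refine ⟨_, ?_, ?_, rfl⟩
            · intro j
              exact leadingCoeff_ne_zero.mpr
                ((map_ne_zero_iff _ (finSuccEquiv k M).injective).mpr (hfirr _).ne_zero)
            · intro j
              have := totalDegree_leadingCoeff_le (f (i.succAbove j))
              have := hfd1 (i.succAbove j)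
              omega
          · exact Submodule.sum_mem _ fun i _ => Submodule.smul_mem _ _ (hx i)
        · intro Ω _ _ φ hφ
          have key := residue_formula hφ a f hfirr hfne hpos
          rw [Fin.sum_univ_succ (fun i : Fin (n + 1) =>
            (-1) ^ (i : ℕ) * TR φ a (f i) (fun j => f (i.succAbove j)))] at key
          have h0 : (fun j : Fin n => f ((0 : Fin (n + 1)).succAbove j)) = g := by
            funext j; rw [Fin.zero_succAbove, hfs]
          rw [h0, hf0, Fin.val_zero, pow_zero, one_mul] at key
          rw [map_sub, map_sum, map_sum, eq_sub_iff_add_eq]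
          refine Eq.trans ?_ (key.trans ?_)
          · congr 1
            apply Finset.sum_congr rfl
            intro i _
            rw [map_zsmul, hxT i Ω φ hφ, zsmul_eq_mul]
            push_cast
            rfl
          · apply Finset.sum_congr rfl
            intro i _
            rw [map_zsmul, lift_J, zsmul_eq_mul]
            push_cast
            rfl
    -- step B
    have hB : ∀ g : Fin n → Pol k (M + 1),
        (∀ i, g i ≠ 0 ∧ (finSuccEquiv k M (g i)).natDegree <
          (finSuccEquiv k M π).natDegree ∧ (g i).totalDegree ≤ d1) → GoodT a (dPL e d1) π g := by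
      intro g hg
      apply entrywise
        (fun x : Pol k (M + 1) => x ≠ 0 ∧ (finSuccEquiv k M x).natDegree <
          (finSuccEquiv k M π).natDegree ∧ x.totalDegree ≤ d1)
        (fun x : Pol k (M + 1) => Irreducible x ∧ (finSuccEquiv k M x).natDegree <
          (finSuccEquiv k M π).natDegree ∧ x.totalDegree ≤ d1) _ hA _ g
        (fun i => Or.inl (hg i))
      intro g i hirr x
      induction x using WfDvdMonoid.induction_on_irreducible with
      | zero => intro h; exact absurd rfl h.1
      | unit u hu =>
        intro _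
        obtain ⟨c, _, rfl⟩ := MvPolynomial.isUnit_iff_eq_C_of_isReduced.mp hu
        apply GoodT.of_zero
        intro Ω _ _ φ hφ
        exact TR_update_C φ a π g i c
      | mul y p hy hp ihy =>
        rintro ⟨h1, h2, h3⟩
        have hE : finSuccEquiv k M (p * y) = finSuccEquiv k M p * finSuccEquiv k M y :=
          map_mul _ _ _
        have hEp : finSuccEquiv k M p ≠ 0 :=
          (map_ne_zero_iff _ (finSuccEquiv k M).injective).mpr hp.ne_zero
        have hEy : finSuccEquiv k M y ≠ 0 :=
          (map_ne_zero_iff _ (finSuccEquiv k M).injective).mpr hy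
        rw [hE, natDegree_mul hEp hEy] at h2
        rw [MvPolynomial.totalDegree_mul_of_isDomain hp.ne_zero hy] at h3
        apply GoodT.mul hπ hd
        · exact not_dvd_of_natDegree hp.ne_zero (by omega)
        · exact not_dvd_of_natDegree hy (by omega)
        · exact hirr p ⟨hp, by omega, by omega⟩
        · exact ihy ⟨hy, by omega, by omega⟩
    -- step C
    apply entrywise
      (fun x : Pol k (M + 1) => ¬ π ∣ x ∧ x.totalDegree ≤ d)
      (fun x : Pol k (M + 1) => x ≠ 0 ∧ (finSuccEquiv k M x).natDegree <
        (finSuccEquiv k M π).natDegree ∧ x.totalDegree ≤ d1) _ hB _ g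
      (fun i => Or.inl ⟨hg i, hgd i⟩)
    intro g i hsmall x hx
    obtain ⟨s, q, r, hs, h1, h2, h3⟩ := pseudo_div π hd (finSuccEquiv k M x).natDegree x le_rfl
    set l : Pol k (M + 1) := MvPolynomial.rename Fin.succ (finSuccEquiv k M π).leadingCoeff with hl
    have hl0 : l ≠ 0 := by
      rw [hl, Ne, map_eq_zero_iff _ (MvPolynomial.rename_injective _ (Fin.succ_injective _))]
      exact leadingCoeff_ne_zero.mpr
        ((map_ne_zero_iff _ (finSuccEquiv k M).injective).mpr hπ.ne_zero)
    have hldeg : (finSuccEquiv k M l).natDegree = 0 := by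
      rw [hl, finSuccEquiv_rename_succ, natDegree_C]
    have hlπ : ¬ π ∣ l := not_dvd_of_natDegree hl0 (by omega)
    have hlx : ¬ π ∣ l ^ s * x := not_dvd_mul hπ (not_dvd_pow hπ hlπ s) hx.1
    have hrπ : ¬ π ∣ r := by
      intro h
      apply hlx
      rw [h1]
      exact dvd_add h (dvd_mul_right _ _)
    have hr0 : r ≠ 0 := by
      rintro rfl
      exact hrπ (dvd_zero _)
    have hxdeg : (finSuccEquiv k M x).natDegree ≤ x.totalDegree := by
      have := totalDegree_leadingCoeff_le x
      omega
    have hrd : r.totalDegree ≤ d1 := by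
      calc r.totalDegree ≤ x.totalDegree + s * π.totalDegree := h3
        _ ≤ d + (d + 1) * d := by
          have : s ≤ d + 1 := by have := hx.2; omega
          exact Nat.add_le_add hx.2 (Nat.mul_le_mul this hπd)
        _ ≤ (d + 1) ^ 2 := by nlinarith
    have hgr : GoodT a (dPL e d1) π (Function.update g i (l ^ s * x)) :=
      GoodT.mod hπ hd h1 hrπ (hsmall r ⟨hr0, h2, hrd⟩)
    have hgl : GoodT a (dPL e d1) π (Function.update g i (l ^ s)) :=
      GoodT.pow hπ hd hlπ (hsmall l ⟨hl0, by omega, by
        have h5 := totalDegree_leadingCoeff_le π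
        have h6 : l.totalDegree ≤ (finSuccEquiv k M π).leadingCoeff.totalDegree :=
          MvPolynomial.totalDegree_rename_le _ _
        omega⟩) s
    exact GoodT.cancel hπ hd (not_dvd_pow hπ hlπ s) hx.1 hgl hgr

theorem PLz_le (a : Fin n → Fin M) (d : ℕ) {x : Fr k M} (hx : x ∈ PLz k a d) :
    x ∈ PLs k a d := by
  have h : PLz k a d ≤ (PLs k a d).restrictScalars ℤ := by
    unfold PLz
    rw [Submodule.span_le]
    intro y hy
    exact Submodule.subset_span hy
  exact h hx

/-- **Bass–Tate lemma.** -/
theorem bassTate (k : Type u) [Field k] [CharZero k] (n d : ℕ) : BassTate k n d (dPL d d) := by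
  intro M a π g hπ hd hg hπd hgd
  have h1 := totalDegree_leadingCoeff_le π
  obtain ⟨x, hx, h⟩ := bassTate_aux d d π a g hπ hd (by omega) hg hπd hgd
  exact ⟨x, PLz_le a _ hx, h⟩

/-- **Bass–Tate lemma**, integral form, without degrees: the trace of the residue is an integral
combination of logarithmic Jacobians, the same one for all embeddings. -/
theorem bassTate_int [CharZero k] (a : Fin n → Fin M) (π : Pol k (M + 1))
    (g : Fin n → Pol k (M + 1)) (hπ : Irreducible π) (hd : 0 < (finSuccEquiv k M π).natDegree)
    (hg : ∀ i, ¬ π ∣ g i) :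
    ∃ x ∈ Submodule.span ℤ {x | ∃ f : Fin n → Pol k M, (∀ i, f i ≠ 0) ∧
        x = J (algebraMap (Pol k M) (Fr k M)) a f},
      ∀ (Ω : Type u) [Field Ω] [IsAlgClosed Ω] (φ : Pol k M →+* Ω)
        (hφ : Function.Injective φ), TR φ a π g = IsFractionRing.lift hφ x := by
  obtain ⟨x, hx, h⟩ := bassTate_aux (finSuccEquiv k M π).natDegree
    (π.totalDegree + ∑ i, (g i).totalDegree) π a g hπ hd le_rfl hg (Nat.le_add_right _ _)
    (fun i => (Finset.single_le_sum (f := fun i => (g i).totalDegree)
      (fun _ _ => Nat.zero_le _) (Finset.mem_univ i)).trans (Nat.le_add_left _ _))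
  refine ⟨x, ?_, h⟩
  refine Submodule.span_mono ?_ hx
  rintro y ⟨f, h1, _, h2⟩
  exact ⟨f, h1, h2⟩

end LF.BT
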