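import Pool.Agent.Helper6.LF.LDefs

/-!
The analytic core of step 2: a rational function whose residues along the conjugates cancel after
all shears has no residue.
-/

namespace LF.Rig

open Polynomial

universe u

section Sep

variable {𝕂 : Type*} [Field 𝕂]

theorem exists_sep [CharZero 𝕂] (Z : Finset 𝕂) (χ : 𝕂 → 𝕂[X]) :
    ∃ μ : ℕ, ∀ z ∈ Z, ∀ z' ∈ Z, z ≠ z' → ∀ β, (taylor ((μ : 𝕂) * z) (χ z)).eval β = 0 →
      (taylor ((μ : 𝕂) * z') (χ z')).eval β = 0 → χ z = 0 ∨ χ z' = 0 := by
  classical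
  let B : Finset 𝕂 := (Z ×ˢ Z).biUnion fun p =>
    ((χ p.1).roots.toFinset ×ˢ (χ p.2).roots.toFinset).image fun q => (q.1 - q.2) / (p.1 - p.2)
  obtain ⟨μ, hμ⟩ := Infinite.exists_notMem_finset
    (B.preimage (Nat.cast : ℕ → 𝕂) (Nat.cast_injective.injOn))
  refine ⟨μ, ?_⟩
  intro z hz z' hz' hzz' β h1 h2
  by_contra hcon
  push Not at hcon
  apply hμ
  rw [Finset.mem_preimage, Finset.mem_biUnion]
  refine ⟨(z, z'), Finset.mem_product.mpr ⟨hz, hz'⟩, Finset.mem_image.mpr
    ⟨(β + μ * z, β + μ * z'), Finset.mem_product.mpr ⟨?_, ?_⟩, ?_⟩⟩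
  · rw [Multiset.mem_toFinset, mem_roots hcon.1, IsRoot.def]
    rwa [taylor_eval] at h1
  · rw [Multiset.mem_toFinset, mem_roots hcon.2, IsRoot.def]
    rwa [taylor_eval] at h2
  · have : z - z' ≠ 0 := sub_ne_zero.mpr hzz'
    change (β + μ * z - (β + μ * z')) / (z - z') = μ
    field_simp
    ring

/-- one shear separates the poles -/
theorem sep_core [IsAlgClosed 𝕂] [CharZero 𝕂] (Z : Finset 𝕂) (R χ : 𝕂 → 𝕂[X]) (c : 𝕂 → 𝕂)
    (hc : ∀ z ∈ Z, c z ≠ 0) (hdeg : ∀ z ∈ Z, (R z).natDegree < (χ z).natDegree)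
    {Ω : Type*} [Field Ω] (ι : 𝕂[X] →+* Ω) (hι : Function.Injective ι)
    (h : ∀ μ : ℕ, ∑ z ∈ Z, ι (taylor ((μ : 𝕂) * z) (R z)) /
      ι (C (c z) * taylor ((μ : 𝕂) * z) (χ z)) = 0) : ∀ z ∈ Z, R z = 0 := by
  classical
  obtain ⟨μ, hμ⟩ := exists_sep Z χ
  have hχ0 : ∀ z ∈ Z, χ z ≠ 0 := by
    intro z hz h0
    have := hdeg z hz
    rw [h0, natDegree_zero] at this
    omega
  set a : 𝕂 → 𝕂[X] := fun z => taylor ((μ : 𝕂) * z) (R z) with ha
  set d : 𝕂 → 𝕂[X] := fun z => C (c z) * taylor ((μ : 𝕂) * z) (χ z) with hd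
  have hd0 : ∀ z ∈ Z, d z ≠ 0 := fun z hz => mul_ne_zero (by simpa using hc z hz) (by
    rw [Ne, taylor_eq_zero]; exact hχ0 z hz)
  have hcop : ∀ z ∈ Z, ∀ z' ∈ Z, z ≠ z' → IsCoprime (d z) (d z') := by
    intro z hz z' hz' hzz'
    have h1 : IsCoprime (taylor ((μ : 𝕂) * z) (χ z)) (taylor ((μ : 𝕂) * z') (χ z')) := by
      rw [Polynomial.isCoprime_iff_aeval_ne_zero_of_isAlgClosed 𝕂 𝕂]
      intro β
      by_contra hcon
      push Not at hcon
      rcases hμ z hz z' hz' hzz' β (by simpa using hcon.1) (by simpa using hcon.2) with h | h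
      · exact hχ0 z hz h
      · exact hχ0 z' hz' h
    have hu : ∀ z ∈ Z, IsUnit (C (c z) : 𝕂[X]) := fun z hz =>
      (isUnit_iff_ne_zero.mpr (hc z hz)).map C
    exact (isCoprime_mul_unit_left_left (hu z hz) _ _).mpr
      ((isCoprime_mul_unit_left_right (hu z' hz') _ _).mpr h1)
  -- clear denominators
  have key : ∑ z ∈ Z, a z * ∏ z' ∈ Z.erase z, d z' = 0 := by
    apply hι
    rw [map_zero, map_sum]
    have h1 : (∏ z ∈ Z, ι (d z)) * ∑ z ∈ Z, ι (a z) / ι (d z) = 0 := by
      rw [h μ, mul_zero]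
    rw [Finset.mul_sum] at h1
    rw [← h1]
    apply Finset.sum_congr rfl
    intro z hz
    have h2 : ι (d z) ≠ 0 := (map_ne_zero_iff ι hι).mpr (hd0 z hz)
    rw [← Finset.mul_prod_erase Z (fun z => ι (d z)) hz, map_mul, map_prod]
    field_simp
  intro z hz
  have hdvd : d z ∣ a z * ∏ z' ∈ Z.erase z, d z' := by
    rw [← Finset.add_sum_erase Z _ hz] at key
    have h1 : a z * ∏ z' ∈ Z.erase z, d z' =
        -∑ x ∈ Z.erase z, a x * ∏ z' ∈ Z.erase x, d z' := eq_neg_of_add_eq_zero_left key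
    rw [h1, dvd_neg]
    apply Finset.dvd_sum
    intro x hx
    apply Dvd.dvd.mul_left
    apply Finset.dvd_prod_of_mem
    exact Finset.mem_erase.mpr ⟨(Finset.ne_of_mem_erase hx).symm, hz⟩
  have hdvd2 : d z ∣ a z := by
    apply IsCoprime.dvd_of_dvd_mul_right _ hdvd
    apply IsCoprime.prod_right
    intro x hx
    exact hcop z hz x (Finset.mem_of_mem_erase hx) (Finset.ne_of_mem_erase hx).symm
  have ha0 : a z = 0 := by
    by_contra hne
    have h1 := natDegree_le_of_dvd hdvd2 hne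
    have h2 := hdeg z hz
    rw [hd, ha] at h1
    simp only [natDegree_taylor] at h1
    rw [natDegree_C_mul (hc z hz), natDegree_taylor] at h1
    omega
  rw [ha] at ha0
  exact (taylor_eq_zero _ _).mp ha0

end Sep

section Main

open MvPolynomial (rename pderiv)

variable {K : Type u} [Field K] {n : ℕ} (j : Fin n)

/-- positions of the variables after `tau` -/
def pos (i : Fin n) : Fin (n + 1) := if i = j then 0 else i.succ

theorem pos_self : pos j j = 0 := if_pos rfl

theorem pos_ne {i : Fin n} (h : i ≠ j) : pos j i = i.succ := if_neg h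

theorem pos_injective : Function.Injective (pos j) := by
  intro a b hab
  by_cases ha : a = j <;> by_cases hb : b = j
  · rw [ha, hb]
  · rw [ha, pos_self, pos_ne j hb] at hab
    exact absurd hab.symm (Fin.succ_ne_zero b)
  · rw [hb, pos_self, pos_ne j ha] at hab
    exact absurd hab (Fin.succ_ne_zero a)
  · rw [pos_ne j ha, pos_ne j hb] at hab
    exact Fin.succ_injective _ hab

theorem tau_X_zero (μ : ℕ) : tau (K := K) j μ (MvPolynomial.X 0) =
    MvPolynomial.X j.succ + MvPolynomial.C (μ : K) * MvPolynomial.X 0 := by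
  simp [tau]

theorem tau_inc (μ : ℕ) (p : Pol K n) : tau j μ (inc n p) = rename (pos j) p := by
  have : (tau j μ).comp (inc n) = (rename (pos j) : Pol K n →ₐ[K] Pol K (n + 1)).toRingHom := by
    apply MvPolynomial.ringHom_ext
    · intro c
      simp only [RingHom.comp_apply, inc_C]
      simp [tau]
    · intro i
      simp only [RingHom.comp_apply, inc_X]
      by_cases hi : i = j
      · subst hi
        simp [tau, pos_self, Fin.succ_ne_zero]
      · have h1 : i.succ ≠ j.succ := fun h => hi (Fin.succ_injective _ h)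
        simp [tau, pos_ne j hi, Fin.succ_ne_zero, hi]
  exact DFunLike.congr_fun this p

theorem pderiv_pos (p : Pol K n) :
    pderiv 0 (rename (pos j) p) = rename (pos j) (pderiv j p) := by
  have := MvPolynomial.pderiv_rename (R := K) (pos_injective j) j p
  rwa [pos_self] at this

theorem irr_inc {p : Pol K n} (h : Irreducible p) : Irreducible (inc n p) := by
  rw [UniqueFactorizationMonoid.irreducible_iff_prime] at h ⊢
  have h1 : Prime (fs (inc n p)) := by
    rw [fs_inc]
    exact Polynomial.prime_C_iff.mpr h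
  exact (MulEquiv.prime_iff (MvPolynomial.finSuccEquiv K n).toMulEquiv).mp h1

theorem irr_pos {p : Pol K n} (h : Irreducible p) : Irreducible (rename (pos j) p) := by
  have h1 : rename (pos j) p = MvPolynomial.renameEquiv K (Equiv.swap 0 j.succ) (inc n p) := by
    change rename (pos j) p = rename (Equiv.swap 0 j.succ) (rename Fin.succ p)
    rw [MvPolynomial.rename_rename]
    have h2 : pos j = (Equiv.swap 0 j.succ) ∘ Fin.succ := by
      funext i
      by_cases hi : i = j
      · subst hi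
        simp [pos_self]
      · rw [pos_ne j hi, Function.comp, Equiv.swap_apply_of_ne_of_ne (Fin.succ_ne_zero i)]
        intro h'
        exact hi (Fin.succ_injective _ h')
    rw [h2]
  rw [h1]
  exact (MulEquiv.irreducible_iff (MvPolynomial.renameEquiv K (Equiv.swap 0 j.succ)).toMulEquiv).mpr
    (irr_inc h)

theorem dvd_of_pos {p q : Pol K n} (h : rename (pos j) p ∣ rename (pos j) q) : p ∣ q := by
  have := map_dvd (MvPolynomial.killCompl (R := K) (pos_injective j)) h
  rwa [MvPolynomial.killCompl_rename_app, MvPolynomial.killCompl_rename_app] at this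

variable {𝕂 Ω : Type u} [Field 𝕂] [Field Ω] (φ₀ : Pol K n →+* 𝕂)

/-- `X j` becomes the variable of `𝕂[X]` -/
noncomputable def Phi : Pol K n →+* 𝕂[X] :=
  MvPolynomial.eval₂Hom (C.comp (φ₀.comp MvPolynomial.C))
    (fun i => if i = j then X else C (φ₀ (MvPolynomial.X i)))

theorem Phi_C (c : K) : Phi j φ₀ (MvPolynomial.C c) = C (φ₀ (MvPolynomial.C c)) := by
  simp [Phi]

theorem Phi_self : Phi j φ₀ (MvPolynomial.X j) = X := by
  simp [Phi]

theorem Phi_ne {i : Fin n} (h : i ≠ j) :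
    Phi j φ₀ (MvPolynomial.X i) = C (φ₀ (MvPolynomial.X i)) := by
  simp [Phi, h]

theorem eval_Phi (p : Pol K n) : (Phi j φ₀ p).eval (φ₀ (MvPolynomial.X j)) = φ₀ p := by
  have : (evalRingHom (φ₀ (MvPolynomial.X j))).comp (Phi j φ₀) = φ₀ := by
    apply MvPolynomial.ringHom_ext
    · intro c
      simp [Phi_C]
    · intro i
      by_cases hi : i = j
      · subst hi
        simp [Phi_self]
      · simp [Phi_ne j φ₀ hi]
  exact DFunLike.congr_fun this p

theorem Phi_injective (h : Function.Injective φ₀) : Function.Injective (Phi j φ₀) := by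
  intro a b hab
  apply h
  rw [← eval_Phi j φ₀ a, ← eval_Phi j φ₀ b, hab]

variable (ι : 𝕂[X] →+* Ω)

theorem map_fs_pos (p : Pol K n) :
    (fs (rename (pos j) p)).map (ι.comp (Phi j φ₀)) = (Phi j φ₀ p).map (ι.comp C) := by
  have : ((Polynomial.mapRingHom (ι.comp (Phi j φ₀))).comp
      ((MvPolynomial.finSuccEquiv K n : Pol K (n + 1) →+* (Pol K n)[X]))).comp
      (rename (pos j) : Pol K n →ₐ[K] Pol K (n + 1)).toRingHom =
      (Polynomial.mapRingHom (ι.comp C)).comp (Phi j φ₀) := by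
    apply MvPolynomial.ringHom_ext
    · intro c
      simp [MvPolynomial.finSuccEquiv_apply, Phi_C]
    · intro i
      by_cases hi : i = j
      · subst hi
        simp [Phi_self, pos_self, MvPolynomial.finSuccEquiv_X_zero]
      · simp [Phi_ne j φ₀ hi, pos_ne j hi, MvPolynomial.finSuccEquiv_X_succ]
  exact DFunLike.congr_fun this p

theorem ext_pos (z : 𝕂) (p : Pol K n) :
    ext (ι.comp (Phi j φ₀)) (ι (C z)) (rename (pos j) p) = ι (C ((Phi j φ₀ p).eval z)) := by
  rw [ext_eq, map_fs_pos, eval_map]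
  exact Polynomial.eval₂_at_apply (ι.comp C) z

theorem ext_tau (μ : ℕ) (z : 𝕂) (q : Pol K (n + 1)) :
    ext (ι.comp (Phi j φ₀)) (ι (C z)) (tau j μ q) =
      ι (taylor ((μ : 𝕂) * z) ((fs q).map ((evalRingHom z).comp (Phi j φ₀)))) := by
  have : (ext (ι.comp (Phi j φ₀)) (ι (C z))).comp (tau j μ) =
      ι.comp ((taylorAlgHom ((μ : 𝕂) * z) : 𝕂[X] →+* 𝕂[X]).comp
        ((Polynomial.mapRingHom ((evalRingHom z).comp (Phi j φ₀))).comp
          (MvPolynomial.finSuccEquiv K n : Pol K (n + 1) →+* (Pol K n)[X]))) := by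
    apply hom_ext_inc
    · apply RingHom.ext
      intro p
      simp only [RingHom.comp_apply]
      rw [tau_inc, ext_pos]
      have : (MvPolynomial.finSuccEquiv K n : Pol K (n + 1) →+* (Pol K n)[X]) (inc n p) = C p :=
        fs_inc p
      rw [this]
      simp
    · simp only [RingHom.comp_apply]
      rw [tau_X_zero, map_add, map_mul, ext_X_succ, ext_X_zero, ext_C, RingHom.comp_apply,
        RingHom.comp_apply, Phi_self, Phi_C]
      have : (MvPolynomial.finSuccEquiv K n : Pol K (n + 1) →+* (Pol K n)[X])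
          (MvPolynomial.X 0) = X := MvPolynomial.finSuccEquiv_X_zero
      rw [this]
      simp
  exact DFunLike.congr_fun this q

theorem natDegree_pos [CharZero K] {p : Pol K n} (h : pderiv j p ≠ 0) :
    0 < (fs (rename (pos j) p)).natDegree := by
  rw [Nat.pos_iff_ne_zero]
  intro h0
  have h1 : fs (pderiv 0 (rename (pos j) p)) = 0 := by
    rw [fs_pderiv_zero, eq_C_of_natDegree_eq_zero h0, derivative_C]
  rw [pderiv_pos] at h1
  apply h
  apply MvPolynomial.rename_injective _ (pos_injective j)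
  apply fs_inj
  rw [h1, map_zero]
  unfold fs
  rw [map_zero]

/-- **Analytic core.** -/
theorem stCore (K : Type u) [Field K] [CharZero K] : StCore K := by
  classical
  intro n j p₀ b χ r hp₀ hj hb hχ hdeg h
  -- the fields
  let 𝕂 : Type u := AlgebraicClosure (Fr K n)
  let φ₀ : Pol K n →+* 𝕂 := (algebraMap (Fr K n) 𝕂).comp (algebraMap (Pol K n) (Fr K n))
  have hφ₀ : Function.Injective φ₀ :=
    (algebraMap (Fr K n) 𝕂).injective.comp am_inj
  have hchar : CharZero 𝕂 := charZero_of_injective_ringHom (φ₀.comp MvPolynomial.C).injective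
  let Ω : Type u := AlgebraicClosure (FractionRing 𝕂[X])
  let ι : 𝕂[X] →+* Ω := (algebraMap (FractionRing 𝕂[X]) Ω).comp
    (algebraMap 𝕂[X] (FractionRing 𝕂[X]))
  have hι : Function.Injective ι := (algebraMap (FractionRing 𝕂[X]) Ω).injective.comp
    (IsFractionRing.injective _ _)
  have hΦ := Phi_injective j φ₀ hφ₀
  have hφ : Function.Injective (ι.comp (Phi j φ₀)) := hι.comp hΦ
  have hιC : Function.Injective (ι.comp C) := hι.comp C_injective
  have hp₀0 : p₀ ≠ 0 := hp₀.ne_zero
  -- the roots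
  set Z : Finset 𝕂 := (Phi j φ₀ p₀).roots.toFinset with hZ
  have hΦ0 : Phi j φ₀ p₀ ≠ 0 := (map_ne_zero_iff _ hΦ).mpr hp₀0
  have hrts : ∀ μ : ℕ, rts (ι.comp (Phi j φ₀)) (tau j μ (inc n p₀)) =
      Z.image (fun z => ι (C z)) := by
    intro μ
    ext ζ
    rw [tau_inc, mem_rts hφ ((map_ne_zero_iff _
      (MvPolynomial.rename_injective _ (pos_injective j))).mpr hp₀0), ext_eq, map_fs_pos,
      Finset.mem_image]
    have h1 : ((Phi j φ₀ p₀).map (ι.comp C)) ≠ 0 := (Polynomial.map_ne_zero_iff hιC).mpr hΦ0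
    have h2 : ((Phi j φ₀ p₀).map (ι.comp C)).eval ζ = 0 ↔
        ζ ∈ ((Phi j φ₀ p₀).map (ι.comp C)).roots := by
      rw [mem_roots h1, IsRoot.def]
    rw [h2, (IsAlgClosed.splits (Phi j φ₀ p₀)).roots_map, Multiset.mem_map]
    constructor
    · rintro ⟨z, hz, rfl⟩
      exact ⟨z, Multiset.mem_toFinset.mpr hz, rfl⟩
    · rintro ⟨z, hz, rfl⟩
      exact ⟨z, Multiset.mem_toFinset.mp hz, rfl⟩
  have hirr := irr_pos j hp₀
  have hpos := natDegree_pos j hj
  -- nonvanishing at the roots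
  have hval : ∀ z ∈ Z, ∀ q : Pol K n, (Phi j φ₀ q).eval z = 0 → p₀ ∣ q := by
    intro z hz q hq
    by_contra hnd
    have h1 : ¬ rename (pos j) p₀ ∣ rename (pos j) q := fun h => hnd (dvd_of_pos j h)
    have h2 : ext (ι.comp (Phi j φ₀)) (ι (C z)) (rename (pos j) p₀) = 0 := by
      rw [ext_pos]
      have : (Phi j φ₀ p₀).eval z = 0 := by
        have := Multiset.mem_toFinset.mp hz
        rwa [mem_roots hΦ0] at this
      rw [this, C_0, map_zero]
    apply ext_ne_zero hirr hpos h1 hφ h2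
    rw [ext_pos, hq, C_0, map_zero]
  have hdj : ¬ p₀ ∣ pderiv j p₀ := by
    intro hd
    apply not_dvd_pderiv_zero hpos
    rw [pderiv_pos]
    exact map_dvd (rename (pos j)) hd
  -- data of the analytic core
  obtain ⟨c, hc⟩ := hχ
  have hc0 : c ≠ 0 := by
    rintro rfl
    rw [MvPolynomial.C_0, leadingCoeff_eq_zero] at hc
    rw [hc, natDegree_zero] at hdeg
    omega
  let θ : 𝕂 → Pol K n →+* 𝕂 := fun z => (evalRingHom z).comp (Phi j φ₀)
  have hχdeg : ∀ z, ((fs χ).map (θ z)).natDegree = (fs χ).natDegree := by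
    intro z
    apply natDegree_map_of_leadingCoeff_ne_zero
    rw [hc]
    have : θ z (MvPolynomial.C c) = φ₀ (MvPolynomial.C c) := by
      change (Phi j φ₀ (MvPolynomial.C c)).eval z = _
      rw [Phi_C, eval_C]
    rw [this]
    exact (map_ne_zero_iff _ hφ₀).mpr (by rwa [Ne, MvPolynomial.C_eq_zero])
  have hR := sep_core Z (fun z => (fs r).map (θ z)) (fun z => (fs χ).map (θ z))
    (fun z => θ z b * θ z (pderiv j p₀))
    (fun z hz => mul_ne_zero (fun h0 => hb (hval z hz b h0))
      (fun h0 => hdj (hval z hz _ h0)))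
    (fun z _ => by
      rw [hχdeg]
      exact (natDegree_map_le).trans_lt hdeg) ι hι (by
    intro μ
    have h1 := h μ Ω (ι.comp (Phi j φ₀)) hφ
    rw [hrts μ, Finset.sum_image (fun x _ y _ hxy => C_injective (hι hxy))] at h1
    rw [← h1]
    apply Finset.sum_congr rfl
    intro z _
    have e1 : pderiv 0 (tau j μ (inc n p₀)) = tau j μ (inc n (pderiv j p₀)) := by
      rw [tau_inc, tau_inc, pderiv_pos]
    have e2 : ∀ q : Pol K n, ext (ι.comp (Phi j φ₀)) (ι (C z)) (tau j μ (inc n q)) =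
        ι (C (θ z q)) := by
      intro q
      rw [tau_inc, ext_pos]
      rfl
    rw [e1, map_mul (tau j μ), map_mul (ext _ _), e2, e2, ext_tau, ext_tau, C_mul]
    congr 1
    rw [map_mul, map_mul]
    ring)
  -- conclusion
  have hZne : Z.Nonempty := by
    have h1 : 0 < (Phi j φ₀ p₀).natDegree := by
      have h2 := map_fs_pos j φ₀ ι p₀
      have h3 := congrArg natDegree h2
      rw [natDegree_map_eq_of_injective hφ, natDegree_map_eq_of_injective hιC] at h3
      omega
    obtain ⟨z, hz⟩ := IsAlgClosed.exists_root (Phi j φ₀ p₀) (by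
      rw [degree_eq_natDegree hΦ0]
      exact_mod_cast h1.ne')
    exact ⟨z, Multiset.mem_toFinset.mpr ((mem_roots hΦ0).mpr hz)⟩
  obtain ⟨z, hz⟩ := hZne
  rw [← fs_dvd, fs_inc, Polynomial.C_dvd_iff_dvd_coeff]
  intro i
  apply hval z hz
  have h1 := congrArg (fun P => P.coeff i) (hR z hz)
  rw [coeff_map, coeff_zero] at h1
  exact h1

end Main

end LF.Rig
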