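import Pool.Agent.Helper8.PL.Rig

/-!
Irreducible polynomials over a relatively algebraically closed subfield stay irreducible.
-/

namespace LF.Rig

open MvPolynomial

universe u

variable {K : Type u} [Field K] {N : ℕ}

theorem mF_inj (F : Subfield K) : Function.Injective (mF F (N := N)) :=
  MvPolynomial.map_injective _ F.subtype.injective

/-- the inclusion of a subfield into a valuation ring -/
def incFO {O : ValuationSubring K} {F : Subfield K} (hO : F.toSubring ≤ O.toSubring) :
    F →+* O where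
  toFun x := ⟨x.1, hO x.2⟩
  map_one' := rfl
  map_mul' _ _ := rfl
  map_zero' := rfl
  map_add' _ _ := rfl

/-- Gauss's lemma: both factors are integral once the leading coefficients are -/
theorem factors_mem (O : ValuationSubring K) (F : Subfield K) (hO : F.toSubring ≤ O.toSubring)
    (q : Pol F N) (hq : q ≠ 0) (g h : Pol K N) (hqgh : mF F q = g * h) (n : Fin N →₀ ℕ)
    (hg : coeff n g = 1) (n' : Fin N →₀ ℕ) (b : F) (hb : b ≠ 0) (hh : coeff n' h = b) :
    (∀ m, coeff m g ∈ O) ∧ ∀ m, coeff m h ∈ O := by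
  have hmq : mF F q ≠ 0 := (map_ne_zero_iff _ (mF_inj F)).mpr hq
  have hg0 : g ≠ 0 := by rintro rfl; exact hmq (by rw [hqgh, zero_mul])
  have hh0 : h ≠ 0 := by rintro rfl; exact hmq (by rw [hqgh, mul_zero])
  obtain ⟨c, hc, g', hg', hgg'⟩ := exists_scale O g hg0
  obtain ⟨d, hd, h', hh', hhh'⟩ := exists_scale O h hh0
  -- `q` over `O`
  let q' : MvPolynomial (Fin N) O := MvPolynomial.map (incFO hO) q
  have hq'1 : vO O q' = mF F q := by
    change MvPolynomial.map _ (MvPolynomial.map _ q) = MvPolynomial.map _ q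
    rw [MvPolynomial.map_map]
    rfl
  have hq' : Prm O q' := by
    have h1 : MvPolynomial.map (IsLocalRing.residue O) q' =
        MvPolynomial.map ((IsLocalRing.residue O).comp (incFO hO)) q := by
      change MvPolynomial.map _ (MvPolynomial.map _ q) = _
      rw [MvPolynomial.map_map]
    unfold Prm
    rw [h1]
    exact (map_ne_zero_iff _ (MvPolynomial.map_injective _ (RingHom.injective _))).mpr hq
  have hgh' : vO O (g' * h') = C (c * d) * vO O q' := by
    rw [map_mul, hgg', hhh', hq'1, hqgh, C_mul]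
    ring
  have hprm : Prm O (g' * h') := hg'.mul hh'
  have hres : ∀ (x : K) (hx : x ∈ O), x⁻¹ ∉ O → IsLocalRing.residue O ⟨x, hx⟩ = 0 := by
    intro x hx hxi
    rw [IsLocalRing.residue_eq_zero_iff, IsLocalRing.mem_maximalIdeal]
    intro hu
    obtain ⟨⟨b, hb⟩, hb'⟩ := hu.exists_right_inv
    have h1 : x * b = 1 := congrArg Subtype.val hb'
    apply hxi
    rw [inv_eq_of_mul_eq_one_right h1]
    exact hb
  have hcd : c * d ≠ 0 := mul_ne_zero hc hd
  have he1 : c * d ∈ O := by
    by_contra hcon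
    have hi : (c * d)⁻¹ ∈ O := (O.mem_or_inv_mem _).resolve_left hcon
    have heq : C ⟨(c * d)⁻¹, hi⟩ * (g' * h') = q' := by
      apply vO_inj O
      rw [map_mul, hgh', map_C, ← mul_assoc, ← C_mul]
      have : O.subtype ⟨(c * d)⁻¹, hi⟩ = (c * d)⁻¹ := rfl
      rw [this, inv_mul_cancel₀ hcd, C_1, one_mul]
    apply hq'
    rw [← heq, map_mul, map_C, hres _ hi (by rwa [inv_inv]), C_0, zero_mul]
  have he2 : (c * d)⁻¹ ∈ O := by
    by_contra hcon
    have heq : g' * h' = C ⟨c * d, he1⟩ * q' := by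
      apply vO_inj O
      rw [hgh', map_mul (vO O), map_C]
      rfl
    apply hprm
    rw [heq, map_mul, map_C, hres _ he1 hcon, C_0, zero_mul]
  have hcO : c ∈ O := by
    have h1 := congrArg (coeff n) hgg'
    rw [coeff_map, coeff_C_mul, hg, mul_one] at h1
    rw [← h1]
    exact (coeff n g').2
  have hdO : d ∈ O := by
    have h1 := congrArg (coeff n') hhh'
    rw [coeff_map, coeff_C_mul, hh] at h1
    have hbi : ((b⁻¹ : F) : K) ∈ O := hO (b⁻¹).2
    have h2 : d = O.subtype (coeff n' h') * ((b⁻¹ : F) : K) := by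
      rw [h1, mul_assoc]
      have : (b : K) * ((b⁻¹ : F) : K) = 1 := by
        rw [← Subfield.coe_mul, mul_inv_cancel₀ hb, Subfield.coe_one]
      rw [this, mul_one]
    rw [h2]
    exact O.mul_mem _ _ (coeff n' h').2 hbi
  have hci : c⁻¹ ∈ O := by
    have : c⁻¹ = d * (c * d)⁻¹ := by field_simp
    rw [this]
    exact O.mul_mem _ _ hdO he2
  have hdi : d⁻¹ ∈ O := by
    have : d⁻¹ = c * (c * d)⁻¹ := by field_simp
    rw [this]
    exact O.mul_mem _ _ hcO he2
  constructor
  · intro m
    have h1 := congrArg (coeff m) hgg'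
    rw [coeff_map, coeff_C_mul] at h1
    have h2 : coeff m g = c⁻¹ * O.subtype (coeff m g') := by
      rw [h1, inv_mul_cancel_left₀ hc]
    rw [h2]
    exact O.mul_mem _ _ hci (coeff m g').2
  · intro m
    have h1 := congrArg (coeff m) hhh'
    rw [coeff_map, coeff_C_mul] at h1
    have h2 : coeff m h = d⁻¹ * O.subtype (coeff m h') := by
      rw [h1, inv_mul_cancel_left₀ hd]
    rw [h2]
    exact O.mul_mem _ _ hdi (coeff m h').2

theorem isUnit_of_mF (F : Subfield K) {q : Pol F N} (h : IsUnit (mF F q)) : IsUnit q := by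
  obtain ⟨c, hc, hcq⟩ := MvPolynomial.isUnit_iff_eq_C_of_isReduced.mp h
  have h1 : q = C (coeff 0 q) := by
    apply MvPolynomial.ext
    intro m
    apply F.subtype.injective
    have h2 := congrArg (coeff m) hcq
    have h3 := congrArg (coeff 0) hcq
    rw [coeff_map, coeff_C] at h2 h3
    rw [coeff_C, h2]
    split_ifs with h4
    · rw [h3, if_pos rfl]
    · rw [map_zero]
  rw [h1]
  apply IsUnit.map
  rw [isUnit_iff_ne_zero]
  intro h0
  have h3 := congrArg (coeff 0) hcq
  rw [coeff_map, coeff_C, if_pos rfl, h0, map_zero] at h3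
  exact hc.ne_zero h3.symm

theorem stIrr (K : Type u) [Field K] : StIrr K := by
  classical
  intro F hF N q hq
  constructor
  · intro hu
    exact hq.not_isUnit (isUnit_of_mF F hu)
  · intro g h hgh
    have hq0 : q ≠ 0 := hq.ne_zero
    have hmq : mF F q ≠ 0 := (map_ne_zero_iff _ (mF_inj F)).mpr hq0
    have hg0 : g ≠ 0 := by rintro rfl; exact hmq (by rw [hgh, zero_mul])
    have hh0 : h ≠ 0 := by rintro rfl; exact hmq (by rw [hgh, mul_zero])
    let mo : MonomialOrder (Fin N) := MonomialOrder.lex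
    set a : K := mo.leadingCoeff g with ha
    have ha0 : a ≠ 0 := MonomialOrder.leadingCoeff_ne_zero_iff.mpr hg0
    set g1 : Pol K N := C a⁻¹ * g with hg1
    set h1 : Pol K N := C a * h with hh1
    have hgh1 : mF F q = g1 * h1 := by
      rw [hgh, hg1, hh1]
      have : (C a⁻¹ * C a : Pol K N) = 1 := by rw [← C_mul, inv_mul_cancel₀ ha0, C_1]
      calc g * h = (C a⁻¹ * C a) * (g * h) := by rw [this, one_mul]
        _ = _ := by ring
    have hcg : coeff (mo.degree g) g1 = 1 := by
      rw [hg1, coeff_C_mul]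
      exact inv_mul_cancel₀ ha0
    have hch : coeff (mo.degree h) h1 = ((coeff (mo.degree (mF F q)) q : F) : K) := by
      rw [hh1, coeff_C_mul]
      have e1 : mo.leadingCoeff (mF F q) = mo.leadingCoeff g * mo.leadingCoeff h := by
        rw [hgh, MonomialOrder.leadingCoeff_mul]
      have e2 : mo.leadingCoeff (mF F q) = ((coeff (mo.degree (mF F q)) q : F) : K) := by
        change coeff (mo.degree (mF F q)) (mF F q) = _
        rw [coeff_map]
        rfl
      rw [← e2, e1]
      rfl
    have hb0 : (coeff (mo.degree (mF F q)) q : F) ≠ 0 := by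
      intro h0
      have e2 : mo.leadingCoeff (mF F q) = ((coeff (mo.degree (mF F q)) q : F) : K) := by
        change coeff (mo.degree (mF F q)) (mF F q) = _
        rw [coeff_map]
        rfl
      rw [h0] at e2
      exact MonomialOrder.leadingCoeff_ne_zero_iff.mpr hmq e2
    have hmem : ∀ (O : ValuationSubring K), F.toSubring ≤ O.toSubring →
        (∀ m, coeff m g1 ∈ O) ∧ ∀ m, coeff m h1 ∈ O := fun O hO =>
      factors_mem O F hO q hq0 g1 h1 hgh1 _ hcg _ _ hb0 hch
    obtain ⟨g2, hg2⟩ := exists_map_eq F.subtype g1 fun m =>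
      ⟨⟨_, mem_of_forall_val F hF _ fun O hO => (hmem O hO).1 m⟩, rfl⟩
    obtain ⟨h2, hh2⟩ := exists_map_eq F.subtype h1 fun m =>
      ⟨⟨_, mem_of_forall_val F hF _ fun O hO => (hmem O hO).2 m⟩, rfl⟩
    have hfac : q = g2 * h2 := by
      apply mF_inj F
      rw [map_mul, hgh1, ← hg2, ← hh2]
    rcases hq.isUnit_or_isUnit hfac with hu | hu
    · left
      have h3 : IsUnit g1 := by rw [← hg2]; exact hu.map _
      exact isUnit_of_mul_isUnit_right (hg1 ▸ h3)
    · right
      have h3 : IsUnit h1 := by rw [← hh2]; exact hu.map _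
      exact isUnit_of_mul_isUnit_right (hh1 ▸ h3)

end LF.Rig
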