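import Pool.Agent.Helper6.LF.LDefs
import Pool.Agent.Helper6.LF.JLem

/-!
Rigidity: if `N / χ` is a combination of log-Jacobians, `N` a polynomial over `K` and `χ` over the
relatively algebraically closed subfield `F`, then `N` has coefficients in `F`.
-/

namespace LF.Rig

open MvPolynomial

universe u

variable {K : Type u} [Field K] {N : ℕ}

theorem exists_map_eq {σ R S : Type*} [CommRing R] [CommRing S] (φ : R →+* S)
    (p : MvPolynomial σ S) (h : ∀ m, coeff m p ∈ φ.range) : ∃ q : MvPolynomial σ R, map φ q = p := by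
  classical
  choose c hc using h
  refine ⟨∑ m ∈ p.support, monomial m (c m), ?_⟩
  rw [map_sum]
  conv_rhs => rw [p.as_sum]
  apply Finset.sum_congr rfl
  intro m _
  rw [map_monomial, hc]

section Val

variable (O : ValuationSubring K)

/-- the inclusion of polynomials over a valuation ring -/
noncomputable abbrev vO {N : ℕ} : MvPolynomial (Fin N) O →+* Pol K N :=
  MvPolynomial.map O.subtype

theorem vO_inj : Function.Injective (vO O (N := N)) :=
  MvPolynomial.map_injective _ O.subtype_injective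

/-- primitive polynomials -/
def Prm (Q : MvPolynomial (Fin N) O) : Prop := MvPolynomial.map (IsLocalRing.residue O) Q ≠ 0

variable {O}

theorem Prm.mul {P Q : MvPolynomial (Fin N) O} (hP : Prm O P) (hQ : Prm O Q) :
    Prm O (P * Q) := by
  unfold Prm
  rw [map_mul]
  exact mul_ne_zero hP hQ

theorem Prm.one : Prm O (1 : MvPolynomial (Fin N) O) := by
  unfold Prm
  rw [map_one]
  exact one_ne_zero

theorem Prm.prod {ι : Type*} (s : Finset ι) (f : ι → MvPolynomial (Fin N) O)
    (h : ∀ i ∈ s, Prm O (f i)) : Prm O (∏ i ∈ s, f i) := by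
  unfold Prm
  rw [map_prod]
  exact Finset.prod_ne_zero_iff.mpr h

variable (O)

theorem exists_scale (g : Pol K N) (hg : g ≠ 0) : ∃ c : K, c ≠ 0 ∧
    ∃ g' : MvPolynomial (Fin N) O, Prm O g' ∧ vO O g' = C c * g := by
  classical
  have hs : g.support.Nonempty := by rwa [Finset.nonempty_iff_ne_empty, Ne, support_eq_empty]
  obtain ⟨m, hm, hmax⟩ := Finset.exists_max_image g.support (fun m => O.valuation (coeff m g)) hs
  have hcm : coeff m g ≠ 0 := mem_support_iff.mp hm
  refine ⟨(coeff m g)⁻¹, inv_ne_zero hcm, ?_⟩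
  have hin : ∀ m', coeff m' (C (coeff m g)⁻¹ * g) ∈ (O.subtype).range := by
    intro m'
    rw [coeff_C_mul]
    have hle : O.valuation ((coeff m g)⁻¹ * coeff m' g) ≤ 1 := by
      by_cases h0 : coeff m' g = 0
      · rw [h0, mul_zero, map_zero]; exact zero_le
      · have h1 := hmax m' (mem_support_iff.mpr h0)
        rw [map_mul, map_inv₀]
        have h2 : O.valuation (coeff m g) ≠ 0 := (Valuation.ne_zero_iff _).mpr hcm
        calc (O.valuation (coeff m g))⁻¹ * O.valuation (coeff m' g)
            ≤ (O.valuation (coeff m g))⁻¹ * O.valuation (coeff m g) := mul_le_mul_right h1 _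
          _ = 1 := inv_mul_cancel₀ h2
    exact ⟨⟨_, O.mem_of_valuation_le_one _ hle⟩, rfl⟩
  obtain ⟨g', hg'⟩ := exists_map_eq O.subtype _ hin
  refine ⟨g', ?_, hg'⟩
  intro h0
  have h1 : coeff m g' = 1 := by
    apply O.subtype_injective
    have h2 := congrArg (coeff m) hg'
    rw [coeff_map, coeff_C_mul, inv_mul_cancel₀ hcm] at h2
    rw [h2, map_one]
  have h3 := congrArg (coeff m) h0
  rw [coeff_map, h1, map_one, coeff_zero] at h3
  exact one_ne_zero h3

/-- rational functions with a primitive denominator -/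
def IntP (W : Fr K N) : Prop :=
  ∃ P Q : MvPolynomial (Fin N) O, Prm O Q ∧
    W * algebraMap _ _ (vO O Q) = algebraMap (Pol K N) (Fr K N) (vO O P)

theorem IntP.add {W W' : Fr K N} (h : IntP O W) (h' : IntP O W') : IntP O (W + W') := by
  obtain ⟨P, Q, hQ, hW⟩ := h
  obtain ⟨P', Q', hQ', hW'⟩ := h'
  refine ⟨P * Q' + P' * Q, Q * Q', hQ.mul hQ', ?_⟩
  rw [map_add, map_add, map_mul, map_mul, map_mul, map_mul, map_mul, map_mul, ← hW, ← hW']
  ring

theorem IntP.neg {W : Fr K N} (h : IntP O W) : IntP O (-W) := by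
  obtain ⟨P, Q, hQ, hW⟩ := h
  refine ⟨-P, Q, hQ, ?_⟩
  rw [map_neg, map_neg, ← hW]
  ring

theorem IntP.zero : IntP O (0 : Fr K N) :=
  ⟨0, 1, Prm.one, by simp⟩

/-- log-Jacobians have primitive denominators -/
theorem intP_J (g : Fin N → Pol K N) (hg : ∀ i, g i ≠ 0) :
    IntP O (J (algebraMap (Pol K N) (Fr K N)) id g) := by
  classical
  choose c hc g' hg' hgg' using fun i => exists_scale O (g i) (hg i)
  refine ⟨Matrix.det (Matrix.of fun i j => pderiv j (g' i)), ∏ i, g' i, Prm.prod _ _ fun i _ =>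
    hg' i, ?_⟩
  have h1 : J (algebraMap (Pol K N) (Fr K N)) id g =
      J (algebraMap (Pol K N) (Fr K N)) id (fun i => C (c i) * g i) := by
    unfold J
    congr 2
    funext i
    have hci : algebraMap (Pol K N) (Fr K N) (C (c i)) ≠ 0 := am_ne (by
      rw [Ne, C_eq_zero]; exact hc i)
    rw [LF.lr_mul _ _ hci (am_ne (hg i)), LF.lr_C, zero_add]
  have h2 : ∀ i, C (c i) * g i ≠ 0 := fun i => mul_ne_zero (by
      rw [Ne, C_eq_zero]; exact hc i) (hg i)
  have h3 := J_mul_prod (k := K) id (fun i => C (c i) * g i) h2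
  rw [← h1] at h3
  have h4 : vO O (∏ i, g' i) = ∏ i, C (c i) * g i := by
    rw [map_prod]
    exact Finset.prod_congr rfl fun i _ => hgg' i
  have h5 : vO O (Matrix.det (Matrix.of fun i j => pderiv j (g' i))) =
      Matrix.det (Matrix.of fun i j => pderiv (id j) (C (c i) * g i)) := by
    rw [RingHom.map_det]
    congr 1
    ext1 i j
    simp only [RingHom.mapMatrix_apply, Matrix.map_apply, Matrix.of_apply, id]
    rw [← hgg' i]
    exact pderiv_map.symm
  rw [h4, h5]
  exact h3

theorem intP_closure {W : Fr K N}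
    (hW : W ∈ AddSubgroup.closure {x | ∃ g : Fin N → Pol K N, (∀ i, g i ≠ 0) ∧
      x = J (algebraMap (Pol K N) (Fr K N)) id g}) : IntP O W := by
  induction hW using AddSubgroup.closure_induction with
  | mem x hx =>
    obtain ⟨g, hg, rfl⟩ := hx
    exact intP_J O g hg
  | zero => exact IntP.zero O
  | add x y _ _ hx hy => exact hx.add O hy
  | neg x _ hx => exact hx.neg O

/-- Gauss's lemma -/
theorem mem_of_intP {W : Fr K N} (hW : IntP O W) (χ : MvPolynomial (Fin N) O) (P : Pol K N)
    (h : W * algebraMap _ _ (vO O χ) = algebraMap _ _ P) : ∀ m, coeff m P ∈ O := by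
  by_cases hP0 : P = 0
  · intro m; rw [hP0, coeff_zero]; exact O.zero_mem
  obtain ⟨P₁, Q, hQ, hWQ⟩ := hW
  obtain ⟨c, hc, P', hP', hPP'⟩ := exists_scale O P hP0
  have hinv : c⁻¹ ∈ O := by
    by_contra hcon
    have hcO : c ∈ O := (O.mem_or_inv_mem c).resolve_right hcon
    have hnu : ¬ IsUnit (⟨c, hcO⟩ : O) := by
      intro hu
      obtain ⟨⟨b, hb⟩, hb'⟩ := hu.exists_right_inv
      have h1 : c * b = 1 := congrArg Subtype.val hb'
      apply hcon
      rw [inv_eq_of_mul_eq_one_right h1]
      exact hb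
    have hres : IsLocalRing.residue O ⟨c, hcO⟩ = 0 := by
      rw [IsLocalRing.residue_eq_zero_iff, IsLocalRing.mem_maximalIdeal]
      exact hnu
    have heq : P' * Q = C ⟨c, hcO⟩ * (χ * P₁) := by
      apply vO_inj O
      apply am_inj (k := K)
      simp only [map_mul]
      rw [hPP', map_C]
      have e1 : O.subtype ⟨c, hcO⟩ = c := rfl
      rw [e1, map_mul, ← h, ← hWQ]
      ring
    have h2 := congrArg (MvPolynomial.map (IsLocalRing.residue O)) heq
    rw [map_mul, map_mul, map_C, hres, C_0, zero_mul] at h2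
    exact mul_ne_zero hP' hQ h2
  intro m
  have h1 := congrArg (coeff m) hPP'
  rw [coeff_map, coeff_C_mul] at h1
  have h2 : coeff m P = c⁻¹ * O.subtype (coeff m P') := by
    rw [h1, inv_mul_cancel_left₀ hc]
  rw [h2]
  exact O.mul_mem _ _ hinv (coeff m P').2

end Val

/-- a relatively algebraically closed subfield is the intersection of the valuation rings
containing it -/
theorem mem_of_forall_val (F : Subfield K) (hF : RelClosed F) (x : K)
    (h : ∀ O : ValuationSubring K, F.toSubring ≤ O.toSubring → x ∈ O) : x ∈ F := by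
  by_contra hx
  have hic : IsIntegrallyClosedIn F.toSubring K := by
    rw [isIntegrallyClosedIn_iff]
    refine ⟨Subtype.val_injective, ?_⟩
    intro y hy
    have h1 : IsAlgebraic F y := by
      have : IsIntegral F y := hy
      exact this.isAlgebraic
    exact ⟨⟨y, hF y h1⟩, rfl⟩
  obtain ⟨V, hV, hxV⟩ := Subring.exists_le_valuationSubring_of_isIntegrallyClosedIn
    (x := x) (R := F.toSubring) hx
  exact hxV (h V hV)

/-- **Rigidity.** -/
theorem stRig (K : Type u) [Field K] : StRig K := by
  intro F hF N W hW χ P hχ hWP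
  have key : ∀ m, coeff m P ∈ F.subtype.range := by
    intro m
    suffices h : coeff m P ∈ F from ⟨⟨_, h⟩, rfl⟩
    apply mem_of_forall_val F hF
    intro O hO
    let χ' : MvPolynomial (Fin N) O := MvPolynomial.map (Subring.inclusion hO) χ
    have h1 : vO O χ' = mF F χ := by
      change MvPolynomial.map _ (MvPolynomial.map _ χ) = MvPolynomial.map _ χ
      rw [MvPolynomial.map_map]
      rfl
    rw [← h1] at hWP
    exact mem_of_intP O (intP_closure O hW) χ' P hWP m
  obtain ⟨P₀, hP₀⟩ := exists_map_eq F.subtype P key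
  exact ⟨P₀, hP₀.symm⟩

end LF.Rig
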