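import Mathlib

/-!
Residue theorem for rational functions with simple poles, over an algebraically closed field, and
the top coefficient of a determinant of polynomials.
-/

namespace Pool.Agent.Helper8.PL

open Polynomial Finset

section Residue

variable {𝕂 : Type*} [Field 𝕂] [IsAlgClosed 𝕂] [DecidableEq 𝕂]

theorem residue_one (Q P : 𝕂[X]) (hQ : Q.Separable) (hP : P.degree < Q.degree) :
    ∑ ζ ∈ Q.roots.toFinset, P.eval ζ / (derivative Q).eval ζ =
      P.coeff (Q.natDegree - 1) / Q.leadingCoeff := by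
  have hQ0 : Q ≠ 0 := by rintro rfl; simp at hP
  have hnd : Q.roots.Nodup := nodup_roots hQ
  have hcard : Q.roots.toFinset.card = Q.natDegree := by
    rw [Multiset.toFinset_card_of_nodup hnd, (IsAlgClosed.splits Q).natDegree_eq_card_roots]
  have hlc : Q.leadingCoeff ≠ 0 := leadingCoeff_ne_zero.mpr hQ0
  have hnodal : Q = C Q.leadingCoeff * Lagrange.nodal Q.roots.toFinset id := by
    conv_lhs => rw [(IsAlgClosed.splits Q).eq_prod_roots]
    congr 1
    rw [Lagrange.nodal_eq, Finset.prod_eq_multiset_prod, Multiset.toFinset_val,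
      hnd.dedup]
    rfl
  have hdeg : P.degree < (Q.roots.toFinset.card : ℕ) := by
    rw [hcard, ← degree_eq_natDegree hQ0]; exact hP
  have h1 := Lagrange.coeff_eq_sum (s := Q.roots.toFinset) (v := id) (Set.injOn_id _) hdeg
  rw [hcard] at h1
  rw [h1, Finset.sum_div]
  apply Finset.sum_congr rfl
  intro ζ hζ
  have h2 : (derivative Q).eval ζ = Q.leadingCoeff *
      ∏ j ∈ Q.roots.toFinset.erase ζ, (ζ - j) := by
    conv_lhs => rw [hnodal]
    rw [derivative_C_mul, eval_C_mul]
    congr 1
    have := Lagrange.eval_nodal_derivative_eval_node_eq (v := id) hζ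
    simp only [id] at this
    rw [this, Lagrange.eval_nodal]
    rfl
  rw [h2]
  simp only [id]
  rw [div_div]
  congr 1
  ring

theorem residue_sum {ι : Type*} [Fintype ι] [DecidableEq ι] (F : ι → 𝕂[X])
    (hsep : ∀ i, (F i).Separable) (hcop : Pairwise (Function.onFun IsCoprime F)) (P : 𝕂[X])
    (hP : P.degree < (∏ i, F i).degree) :
    ∑ i, ∑ ζ ∈ (F i).roots.toFinset,
      P.eval ζ / ((derivative (F i)).eval ζ * ∏ j ∈ univ.erase i, (F j).eval ζ) =
      P.coeff ((∏ i, F i).natDegree - 1) / ∏ i, (F i).leadingCoeff := by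
  have hQsep : (∏ i, F i).Separable := separable_prod hcop hsep
  have hF0 : ∀ i, F i ≠ 0 := fun i => (hsep i).ne_zero
  have hQ0 : (∏ i, F i) ≠ 0 := Finset.prod_ne_zero_iff.mpr fun i _ => hF0 i
  rw [← leadingCoeff_prod, ← residue_one _ _ hQsep hP]
  have hroots : (∏ i, F i).roots.toFinset = univ.biUnion fun i => (F i).roots.toFinset := by
    ext ζ
    simp only [Multiset.mem_toFinset, mem_biUnion, mem_univ, true_and, mem_roots hQ0, IsRoot.def,
      eval_prod, prod_eq_zero_iff]
    constructor
    · rintro ⟨i, h⟩; exact ⟨i, (mem_roots (hF0 i)).mpr h⟩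
    · rintro ⟨i, h⟩; exact ⟨i, (mem_roots (hF0 i)).mp h⟩
  rw [hroots, Finset.sum_biUnion]
  · apply Finset.sum_congr rfl
    intro i _
    apply Finset.sum_congr rfl
    intro ζ hζ
    rw [Multiset.mem_toFinset, mem_roots (hF0 i), IsRoot.def] at hζ
    congr 1
    rw [← Finset.mul_prod_erase univ F (mem_univ i), derivative_mul, eval_add, eval_mul, eval_mul,
      hζ, zero_mul, add_zero, eval_prod]
  · intro i _ j _ hij
    rw [Function.onFun, Finset.disjoint_left]
    intro ζ h1 h2
    rw [Multiset.mem_toFinset, mem_roots (hF0 _), IsRoot.def] at h1 h2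
    obtain ⟨u, v, huv⟩ := hcop hij
    have := congrArg (eval ζ) huv
    rw [eval_add, eval_mul, eval_mul, h1, h2, mul_zero, mul_zero, add_zero, eval_one] at this
    exact zero_ne_one this

end Residue

section TopCoeff

variable {R : Type*} [CommRing R] {m : ℕ}

theorem coeff_prod_le {ι : Type*} (s : Finset ι) (f : ι → R[X]) (e : ι → ℕ)
    (h : ∀ i ∈ s, (f i).natDegree ≤ e i) :
    (∏ i ∈ s, f i).natDegree ≤ ∑ i ∈ s, e i ∧
      (∏ i ∈ s, f i).coeff (∑ i ∈ s, e i) = ∏ i ∈ s, (f i).coeff (e i) := by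
  classical
  induction s using Finset.induction_on with
  | empty => simp
  | insert a s ha ih =>
    obtain ⟨h1, h2⟩ := ih fun i hi => h i (Finset.mem_insert_of_mem hi)
    have h3 := h a (Finset.mem_insert_self _ _)
    rw [Finset.prod_insert ha, Finset.sum_insert ha, Finset.prod_insert ha]
    refine ⟨natDegree_mul_le.trans (Nat.add_le_add h3 h1), ?_⟩
    rw [coeff_mul_add_eq_of_natDegree_le h3 h1, h2]

/-- top coefficient of a determinant -/
theorem coeff_det_le (B : Matrix (Fin m) (Fin m) R[X]) (e : Fin m → ℕ)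
    (h : ∀ i j, (B i j).natDegree ≤ e i) :
    B.det.natDegree ≤ ∑ i, e i ∧
      B.det.coeff (∑ i, e i) = (Matrix.of fun i j => (B i j).coeff (e i)).det := by
  classical
  have hperm : ∀ σ : Equiv.Perm (Fin m), ∑ i, e (σ i) = ∑ i, e i := fun σ =>
    Equiv.sum_comp σ e
  rw [Matrix.det_apply, Matrix.det_apply]
  constructor
  · apply natDegree_sum_le_of_forall_le
    intro σ _
    refine (natDegree_smul_le _ _).trans ?_
    rw [← hperm σ]
    exact (coeff_prod_le univ (fun i => B (σ i) i) (fun i => e (σ i)) fun i _ => h _ _).1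
  · rw [finsetSum_coeff]
    apply Finset.sum_congr rfl
    intro σ _
    rw [coeff_smul]
    congr 1
    conv_lhs => rw [← hperm σ]
    rw [(coeff_prod_le univ (fun i => B (σ i) i) (fun i => e (σ i)) fun i _ => h _ _).2]
    rfl

end TopCoeff

end Pool.Agent.Helper8.PL
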