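import Pool.Agent.Helper8.PL.Basic
import Pool.Agent.Helper8.PL.Residue

/-!
Arithmetic of `Pol k (M+1)` as polynomials in one variable over `Pol k M`.
-/

namespace LF.BT

open Polynomial
open MvPolynomial (finSuccEquiv pderiv totalDegree)

universe u

variable {k : Type u} [Field k] {n M : ℕ}

section Gauss

theorem irreducible_fse {π : Pol k (M + 1)} (hπ : Irreducible π) :
    Irreducible (finSuccEquiv k M π) :=
  (MulEquiv.irreducible_iff (finSuccEquiv k M)).mpr hπ

theorem isPrimitive_fse {π : Pol k (M + 1)} (hπ : Irreducible π)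
    (hd : 0 < (finSuccEquiv k M π).natDegree) : (finSuccEquiv k M π).IsPrimitive :=
  (irreducible_fse hπ).isPrimitive (by omega)

theorem irreducible_map {π : Pol k (M + 1)} (hπ : Irreducible π)
    (hd : 0 < (finSuccEquiv k M π).natDegree) :
    Irreducible ((finSuccEquiv k M π).map (algebraMap (Pol k M) (Fr k M))) :=
  (isPrimitive_fse hπ hd).irreducible_iff_irreducible_map_fraction_map.mp (irreducible_fse hπ)

theorem dvd_of_map_dvd {π u : Pol k (M + 1)} (hπ : Irreducible π)
    (hd : 0 < (finSuccEquiv k M π).natDegree)
    (h : (finSuccEquiv k M π).map (algebraMap (Pol k M) (Fr k M)) ∣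
      (finSuccEquiv k M u).map (algebraMap (Pol k M) (Fr k M))) : π ∣ u := by
  have h1 := (isPrimitive_fse hπ hd).dvd_of_fraction_map_dvd_fraction_map h
  exact (map_dvd_iff (finSuccEquiv k M)).mp h1

theorem map_lift {L : Type*} [Field L] {φ : Pol k M →+* L} (hφ : Function.Injective φ)
    (p : (Pol k M)[X]) : (p.map (algebraMap (Pol k M) (Fr k M))).map
      (IsFractionRing.lift hφ : Fr k M →+* L) = p.map φ := by
  rw [Polynomial.map_map]
  congr 1
  ext x
  · simp [IsFractionRing.lift_algebraMap]
  · simp [IsFractionRing.lift_algebraMap]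

theorem isCoprime_map {L : Type*} [Field L] {φ : Pol k M →+* L} (hφ : Function.Injective φ)
    {π u : Pol k (M + 1)} (hπ : Irreducible π) (hd : 0 < (finSuccEquiv k M π).natDegree)
    (hu : ¬ π ∣ u) :
    IsCoprime ((finSuccEquiv k M π).map φ) ((finSuccEquiv k M u).map φ) := by
  have h1 : IsCoprime ((finSuccEquiv k M π).map (algebraMap (Pol k M) (Fr k M)))
      ((finSuccEquiv k M u).map (algebraMap (Pol k M) (Fr k M))) :=
    (irreducible_map hπ hd).coprime_iff_not_dvd.mpr fun h => hu (dvd_of_map_dvd hπ hd h)
  have h2 := h1.map (Polynomial.mapRingHom (IsFractionRing.lift hφ : Fr k M →+* L))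
  simp only [Polynomial.coe_mapRingHom, map_lift hφ] at h2
  exact h2

theorem ext_ne_zero {L : Type u} [Field L] {φ : Pol k M →+* L} (hφ : Function.Injective φ)
    {π u : Pol k (M + 1)} (hπ : Irreducible π) (hd : 0 < (finSuccEquiv k M π).natDegree)
    (hu : ¬ π ∣ u) {ζ : L} (hζ : ζ ∈ rts φ π) : ext φ ζ u ≠ 0 := by
  intro h0
  rw [mem_rts φ ζ (map_ne_zero_of_injective φ hφ hπ.ne_zero)] at hζ
  obtain ⟨a, b, hab⟩ := isCoprime_map hφ hπ hd hu
  have := congrArg (eval ζ) hab
  rw [eval_add, eval_mul, eval_mul, ← ext_apply, ← ext_apply, hζ, h0, mul_zero, mul_zero,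
    add_zero, eval_one] at this
  exact zero_ne_one this

theorem separable_map [CharZero k] {L : Type*} [Field L] {φ : Pol k M →+* L}
    (hφ : Function.Injective φ) {π : Pol k (M + 1)} (hπ : Irreducible π)
    (hd : 0 < (finSuccEquiv k M π).natDegree) : ((finSuccEquiv k M π).map φ).Separable := by
  have : CharZero (Fr k M) := charZero_of_injective_algebraMap (algebraMap k (Fr k M)).injective
  have h1 := (irreducible_map hπ hd).separable
  have h2 := h1.map (f := (IsFractionRing.lift hφ : Fr k M →+* L))
  rwa [map_lift hφ] at h2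

theorem ext_pderiv_ne_zero [CharZero k] {L : Type u} [Field L] {φ : Pol k M →+* L}
    (hφ : Function.Injective φ) {π : Pol k (M + 1)} (hπ : Irreducible π)
    (hd : 0 < (finSuccEquiv k M π).natDegree) {ζ : L} (hζ : ζ ∈ rts φ π) :
    ext φ ζ (pderiv 0 π) ≠ 0 := by
  rw [mem_rts φ ζ (map_ne_zero_of_injective φ hφ hπ.ne_zero), ext_apply] at hζ
  rw [ext_apply, finSuccEquiv_pderiv_zero, ← derivative_map]
  obtain ⟨a, b, hab⟩ := separable_map hφ hπ hd
  intro h0
  have := congrArg (eval ζ) hab
  rw [eval_add, eval_mul, eval_mul, hζ, h0, mul_zero, mul_zero, add_zero, eval_one] at this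
  exact zero_ne_one this

end Gauss

section Degree

theorem totalDegree_leadingCoeff_le (f : Pol k (M + 1)) :
    (finSuccEquiv k M f).leadingCoeff.totalDegree + (finSuccEquiv k M f).natDegree ≤
      f.totalDegree := by
  by_cases hf : f = 0
  · subst hf; simp
  · apply MvPolynomial.totalDegree_coeff_finSuccEquiv_add_le
    exact leadingCoeff_ne_zero.mpr
      ((map_ne_zero_iff _ (finSuccEquiv k M).injective).mpr hf)

theorem not_dvd_of_natDegree {π u : Pol k (M + 1)} (hu : u ≠ 0)
    (h : (finSuccEquiv k M u).natDegree < (finSuccEquiv k M π).natDegree) : ¬ π ∣ u := by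
  intro hdvd
  have h1 : finSuccEquiv k M π ∣ finSuccEquiv k M u := (map_dvd_iff (finSuccEquiv k M)).mpr hdvd
  have h2 := natDegree_le_of_dvd h1 ((map_ne_zero_iff _ (finSuccEquiv k M).injective).mpr hu)
  omega

/-- pseudo-division -/
theorem pseudo_div (π : Pol k (M + 1)) (he : 0 < (finSuccEquiv k M π).natDegree) :
    ∀ (N : ℕ) (x : Pol k (M + 1)), (finSuccEquiv k M x).natDegree ≤ N →
      ∃ (s : ℕ) (q r : Pol k (M + 1)), s ≤ N + 1 ∧
        (MvPolynomial.rename Fin.succ (finSuccEquiv k M π).leadingCoeff) ^ s * x = r + π * q ∧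
        (finSuccEquiv k M r).natDegree < (finSuccEquiv k M π).natDegree ∧
        r.totalDegree ≤ x.totalDegree + s * π.totalDegree := by
  intro N
  induction N with
  | zero =>
    intro x hx
    exact ⟨0, 0, x, Nat.zero_le _, by ring, by omega, by simp⟩
  | succ N ih =>
    intro x hx
    by_cases hlt : (finSuccEquiv k M x).natDegree < (finSuccEquiv k M π).natDegree
    · exact ⟨0, 0, x, Nat.zero_le _, by ring, hlt, by simp⟩
    push Not at hlt
    set E := finSuccEquiv k M with hE
    set l : Pol k (M + 1) := MvPolynomial.rename Fin.succ (E π).leadingCoeff with hl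
    set m : Pol k (M + 1) := MvPolynomial.rename Fin.succ (E x).leadingCoeff with hm
    set e := (E π).natDegree with he'
    set j := (E x).natDegree - e with hj
    have hEl : E l = Polynomial.C (E π).leadingCoeff := finSuccEquiv_rename_succ _
    have hEm : E m = Polynomial.C (E x).leadingCoeff := finSuccEquiv_rename_succ _
    have hX : E (MvPolynomial.X 0) = Polynomial.X := MvPolynomial.finSuccEquiv_X_zero
    set x' : Pol k (M + 1) := l * x - m * MvPolynomial.X 0 ^ j * π with hx'
    have hx0 : E x ≠ 0 := by
      intro h0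
      rw [h0, natDegree_zero] at hlt
      omega
    have hπ0 : E π ≠ 0 := by
      intro h0
      rw [he', h0, natDegree_zero] at he
      omega
    -- degrees
    have hdeg : (E x').natDegree ≤ N := by
      have e1 : E x' = Polynomial.C (E π).leadingCoeff * E x -
          Polynomial.C (E x).leadingCoeff * Polynomial.X ^ j * E π := by
        rw [hx', map_sub, map_mul, map_mul, map_mul, map_pow, hX, hEl, hEm]
      have hNe : (E x).natDegree = e + j := by omega
      have d1 : (Polynomial.C (E π).leadingCoeff * E x).natDegree ≤ e + j := by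
        refine (natDegree_C_mul_le _ _).trans (by omega)
      have d2 : (Polynomial.C (E x).leadingCoeff * Polynomial.X ^ j * E π).natDegree ≤ e + j := by
        refine natDegree_mul_le.trans ?_
        have := natDegree_C_mul_X_pow_le (E x).leadingCoeff j
        omega
      have hle : (E x').natDegree ≤ e + j := by
        rw [e1]
        refine (natDegree_sub_le_of_le d1 d2).trans ?_
        rw [max_self]
      have hcoef : (E x').coeff (e + j) = 0 := by
        rw [e1, coeff_sub, coeff_C_mul, mul_assoc, coeff_C_mul, mul_comm (Polynomial.X ^ j),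
          coeff_mul_X_pow, ← hNe]
        rw [show (E x).coeff (E x).natDegree = (E x).leadingCoeff from rfl,
          show (E π).coeff e = (E π).leadingCoeff from rfl]
        ring
      have hpos : 0 < e + j := by omega
      have : (E x').natDegree ≠ e + j := by
        intro h
        have h2 : (E x').leadingCoeff = 0 := by rw [leadingCoeff, h, hcoef]
        rw [leadingCoeff_eq_zero] at h2
        rw [h2, natDegree_zero] at h
        omega
      omega
    obtain ⟨s, q, r, hs, h1, h2, h3⟩ := ih x' hdeg
    refine ⟨s + 1, q + l ^ s * m * MvPolynomial.X 0 ^ j, r, by omega, ?_, h2, ?_⟩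
    · have : l ^ (s + 1) * x = l ^ s * x' + l ^ s * (m * MvPolynomial.X 0 ^ j * π) := by
        rw [hx']; ring
      rw [this, h1]; ring
    · have t1 := totalDegree_leadingCoeff_le π
      have t2 := totalDegree_leadingCoeff_le x
      have t3 : l.totalDegree ≤ (E π).leadingCoeff.totalDegree :=
        MvPolynomial.totalDegree_rename_le _ _
      have t4 : m.totalDegree ≤ (E x).leadingCoeff.totalDegree :=
        MvPolynomial.totalDegree_rename_le _ _
      have t5 : x'.totalDegree ≤ x.totalDegree + π.totalDegree := by
        rw [hx']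
        refine (MvPolynomial.totalDegree_sub _ _).trans ?_
        apply max_le
        · refine (MvPolynomial.totalDegree_mul _ _).trans ?_
          rw [← hE, ← he'] at t1
          omega
        · refine (MvPolynomial.totalDegree_mul _ _).trans ?_
          have := MvPolynomial.totalDegree_mul m (MvPolynomial.X 0 ^ j : Pol k (M + 1))
          have h7 : (MvPolynomial.X 0 ^ j : Pol k (M + 1)).totalDegree ≤ j := by
            rw [MvPolynomial.totalDegree_X_pow]
          rw [← hE] at t2
          omega
      calc r.totalDegree ≤ x'.totalDegree + s * π.totalDegree := h3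
        _ ≤ x.totalDegree + π.totalDegree + s * π.totalDegree := Nat.add_le_add_right t5 _
        _ = _ := by ring

end Degree

end LF.BT
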