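import Pool.Agent.Helper6.LF.Defs

/-!
Logarithmic Jacobians and sums of residues: basic lemmas.
-/

namespace LF.BT

open Polynomial

universe u

variable {k : Type u} [Field k] {n M : ℕ}

@[simp] theorem up_zero (a : Fin n → Fin M) : up a 0 = 0 := rfl
@[simp] theorem up_succ (a : Fin n → Fin M) (j : Fin n) : up a j.succ = (a j).succ := rfl

section FinSucc

open MvPolynomial (finSuccEquiv pderiv)

theorem finSuccEquiv_pderiv_zero (f : Pol k (M + 1)) :
    finSuccEquiv k M (pderiv 0 f) = derivative (finSuccEquiv k M f) := by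
  induction f using MvPolynomial.induction_on with
  | C a => simp [MvPolynomial.finSuccEquiv_apply]
  | add p q hp hq => simp [hp, hq]
  | mul_X p i hp =>
    rw [Derivation.leibniz, map_add, smul_eq_mul, smul_eq_mul, map_mul, map_mul, map_mul,
      derivative_mul, hp]
    refine Fin.cases ?_ (fun i => ?_) i
    · rw [MvPolynomial.pderiv_X_self, map_one, MvPolynomial.finSuccEquiv_X_zero, derivative_X]
      ring
    · rw [MvPolynomial.pderiv_X_of_ne (Fin.succ_ne_zero i), map_zero,
        MvPolynomial.finSuccEquiv_X_succ, derivative_C]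
      ring

theorem coeff_finSuccEquiv_pderiv_succ (j : Fin M) (f : Pol k (M + 1)) (i : ℕ) :
    (finSuccEquiv k M (pderiv j.succ f)).coeff i =
      pderiv j ((finSuccEquiv k M f).coeff i) := by
  induction f using MvPolynomial.induction_on generalizing i with
  | C a => simp [MvPolynomial.finSuccEquiv_apply, Polynomial.coeff_C]; split_ifs <;> simp
  | add p q hp hq => simp [hp, hq]
  | mul_X p l hp =>
    rw [Derivation.leibniz, map_add, smul_eq_mul, smul_eq_mul, map_mul, map_mul, map_mul,
      Polynomial.coeff_add]
    refine Fin.cases ?_ (fun l => ?_) l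
    · rw [MvPolynomial.pderiv_X_of_ne (Fin.succ_ne_zero j).symm, map_zero,
        MvPolynomial.finSuccEquiv_X_zero, mul_zero, Polynomial.coeff_zero, zero_add]
      cases i with
      | zero => simp
      | succ i => rw [X_mul, coeff_mul_X, coeff_mul_X, hp]
    · rw [MvPolynomial.finSuccEquiv_X_succ, coeff_mul_C, Derivation.leibniz, smul_eq_mul,
        smul_eq_mul, mul_comm (Polynomial.C _), coeff_mul_C, hp]
      congr 1
      swap
      · ring
      by_cases h : l = j
      · subst h
        rw [MvPolynomial.pderiv_X_self, MvPolynomial.pderiv_X_self, map_one, mul_one, mul_one]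
      · rw [MvPolynomial.pderiv_X_of_ne h, MvPolynomial.pderiv_X_of_ne (by
          intro h'; exact h (Fin.succ_injective _ h')), map_zero, mul_zero,
          Polynomial.coeff_zero, mul_zero]

theorem natDegree_finSuccEquiv_pderiv_succ (j : Fin M) (f : Pol k (M + 1)) :
    (finSuccEquiv k M (pderiv j.succ f)).natDegree ≤ (finSuccEquiv k M f).natDegree := by
  apply natDegree_le_iff_coeff_eq_zero.mpr
  intro N hN
  rw [coeff_finSuccEquiv_pderiv_succ, coeff_eq_zero_of_natDegree_lt hN, map_zero]

theorem finSuccEquiv_rename_succ (p : Pol k M) :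
    finSuccEquiv k M (MvPolynomial.rename Fin.succ p) = Polynomial.C p := by
  induction p using MvPolynomial.induction_on with
  | C a => simp [MvPolynomial.finSuccEquiv_apply]
  | add p q hp hq => simp [hp, hq]
  | mul_X p i hp =>
    rw [map_mul, map_mul, hp, MvPolynomial.rename_X, MvPolynomial.finSuccEquiv_X_succ, map_mul]

end FinSucc

section Ext

variable {L : Type u} [Field L] (φ : Pol k M →+* L) (ζ : L)

theorem ext_apply (f : Pol k (M + 1)) :
    ext φ ζ f = ((MvPolynomial.finSuccEquiv k M f).map φ).eval ζ := by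
  rw [eval_map]; rfl

theorem mem_rts {π : Pol k (M + 1)} (hπ : (MvPolynomial.finSuccEquiv k M π).map φ ≠ 0) :
    ζ ∈ rts φ π ↔ ext φ ζ π = 0 := by
  classical
  rw [rts, Multiset.mem_toFinset, mem_roots hπ, IsRoot.def, ext_apply]

theorem map_ne_zero_of_injective (hφ : Function.Injective φ) {π : Pol k (M + 1)} (hπ : π ≠ 0) :
    (MvPolynomial.finSuccEquiv k M π).map φ ≠ 0 := by
  rw [Ne, Polynomial.map_eq_zero_iff hφ]
  exact (map_ne_zero_iff _ (MvPolynomial.finSuccEquiv k M).injective).mpr hπ

end Ext

section Rho

variable {L : Type u} [Field L]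

theorem lr_mul (θ : Pol k M →+* L) (a : Fin n → Fin M) {u v : Pol k M} (hu : θ u ≠ 0)
    (hv : θ v ≠ 0) : lr θ a (u * v) = lr θ a u + lr θ a v := by
  funext j
  simp only [lr, Pi.add_apply, Derivation.leibniz, smul_eq_mul, map_add, map_mul]
  field_simp
  ring

theorem lr_C (θ : Pol k M →+* L) (a : Fin n → Fin M) (c : k) :
    lr θ a (MvPolynomial.C c) = 0 := by
  funext j
  simp [lr]

variable (θ : Pol k (M + 1) →+* L) (a : Fin n → Fin M) (π : Pol k (M + 1))
  (g : Fin n → Pol k (M + 1))

/-- the matrix of `rho`, as a family of rows -/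
noncomputable def rows : Fin (n + 1) → Fin (n + 1) → L :=
  Fin.cons (fun j => θ (MvPolynomial.pderiv (up a j) π)) (fun i => lr θ (up a) (g i))

theorem rho_eq : rho θ a π g = Matrix.det (rows θ a π g) := rfl

theorem rows_update (i : Fin n) (x : Pol k (M + 1)) :
    rows θ a π (Function.update g i x) =
      Function.update (rows θ a π g) i.succ (lr θ (up a) x) := by
  funext l
  refine Fin.cases ?_ (fun l => ?_) l
  · simp [rows, Function.update_of_ne (Fin.succ_ne_zero i).symm]
  · by_cases h : l = i
    · subst h; simp [rows]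
    · rw [Function.update_of_ne (by intro h'; exact h (Fin.succ_injective _ h'))]
      simp [rows, Function.update_of_ne h]

theorem rho_update_mul (i : Fin n) {u v : Pol k (M + 1)} (hu : θ u ≠ 0) (hv : θ v ≠ 0) :
    rho θ a π (Function.update g i (u * v)) =
      rho θ a π (Function.update g i u) + rho θ a π (Function.update g i v) := by
  rw [rho_eq, rho_eq, rho_eq, rows_update, rows_update, rows_update, lr_mul _ _ hu hv]
  exact Matrix.detRowAlternating.map_update_add (rows θ a π g) i.succ _ _

theorem rho_update_C (i : Fin n) (c : k) :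
    rho θ a π (Function.update g i (MvPolynomial.C c)) = 0 := by
  rw [rho_eq, rows_update, lr_C]
  exact Matrix.detRowAlternating.map_update_zero (rows θ a π g) i.succ

theorem rho_update_mod (i : Fin n) {u v q : Pol k (M + 1)} (huv : u = v + π * q)
    (hπ : θ π = 0) (hv : θ v ≠ 0) :
    rho θ a π (Function.update g i u) = rho θ a π (Function.update g i v) := by
  have hu : θ u = θ v := by rw [huv, map_add, map_mul, hπ, zero_mul, add_zero]
  have h1 : lr θ (up a) u = lr θ (up a) v + (θ q / θ v) • rows θ a π g 0 := by
    funext j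
    simp only [lr, hu, Pi.add_apply, Pi.smul_apply, smul_eq_mul, rows, Fin.cons_zero]
    rw [huv]
    simp only [map_add, Derivation.leibniz, smul_eq_mul, map_mul, hπ]
    field_simp
    ring
  rw [rho_eq, rho_eq, rows_update, rows_update, h1]
  have h2 := Matrix.detRowAlternating.map_update_add (rows θ a π g) i.succ (lr θ (up a) v)
    ((θ q / θ v) • rows θ a π g 0)
  have h3 := Matrix.detRowAlternating.map_update_smul (rows θ a π g) i.succ (θ q / θ v)
    (rows θ a π g 0)
  have h4 : Matrix.detRowAlternating (R := L) (Function.update (rows θ a π g) i.succ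
      (rows θ a π g 0)) = 0 :=
    Matrix.detRowAlternating.map_update_self (rows θ a π g) (Fin.succ_ne_zero i)
  refine h2.trans ?_
  rw [h3, h4, smul_zero, add_zero]
  rfl

theorem rho_eq_zero_of_lr_eq {i j : Fin n} (hij : i ≠ j)
    (h : lr θ (up a) (g i) = lr θ (up a) (g j)) : rho θ a π g = 0 := by
  rw [rho_eq]
  refine Matrix.det_zero_of_row_eq (i := i.succ) (j := j.succ) ?_ ?_
  · intro h'; exact hij (Fin.succ_injective _ h')
  · funext l
    simp only [Matrix.of_apply, rows, Fin.cons_succ]
    exact congrFun h l

end Rho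

end LF.BT
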