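import Pool.Agent.Helper8.PL.Arith

/-!
The residue theorem for logarithmic Jacobians.
-/

namespace LF.BT

open Polynomial
open MvPolynomial (finSuccEquiv pderiv totalDegree)
open Pool.Agent.Helper8.PL

universe u

variable {k : Type u} [Field k] {n M : ℕ}

section Det

variable {R : Type*} [CommRing R]

theorem isCoprime_unit_left {x y : R} (h : IsUnit x) : IsCoprime x y := by
  obtain ⟨v, rfl⟩ := h
  exact ⟨(v⁻¹ : Rˣ), 0, by simp⟩

theorem det_cons_succAbove (A : Fin (n + 1) → Fin (n + 1) → R) (i : Fin (n + 1)) :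
    (Matrix.of A).det = (-1) ^ (i : ℕ) * (Matrix.of (Fin.cons (A i)
      (fun j => A (i.succAbove j)) : Fin (n + 1) → Fin (n + 1) → R)).det := by
  rw [Matrix.det_succ_row (Matrix.of A) i, Matrix.det_succ_row_zero, Finset.mul_sum]
  apply Finset.sum_congr rfl
  intro j _
  have : Matrix.submatrix (Matrix.of (Fin.cons (A i) (fun j => A (i.succAbove j)) :
      Fin (n + 1) → Fin (n + 1) → R)) Fin.succ j.succAbove =
      (Matrix.of A).submatrix i.succAbove j.succAbove := by
    ext l m
    simp [Matrix.submatrix]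
  rw [this, pow_add]
  simp only [Matrix.of_apply, Fin.cons_zero]
  ring

theorem det_row_scale (A B : Matrix (Fin n) (Fin n) R) (v : Fin n → R)
    (h : ∀ i j, A i j = v i * B i j) : A.det = (∏ i, v i) * B.det := by
  rw [← Matrix.det_mul_column]
  congr 1
  ext i j
  rw [h, Matrix.of_apply]

end Det

variable {𝕂 : Type u} [Field 𝕂]

/-- at a root of `f i` -/
theorem rho_at_root (θ : Pol k (M + 1) →+* 𝕂) (a : Fin n → Fin M) (f : Fin (n + 1) → Pol k (M + 1))
    (i : Fin (n + 1)) (h : ∀ j, j ≠ i → θ (f j) ≠ 0) :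
    θ (Matrix.det (Matrix.of fun l j => pderiv (up a j) (f l))) =
      (∏ j ∈ Finset.univ.erase i, θ (f j)) *
        ((-1) ^ (i : ℕ) * rho θ a (f i) (fun j => f (i.succAbove j))) := by
  classical
  set A : Fin (n + 1) → Fin (n + 1) → 𝕂 := fun l =>
    if l = i then (fun j => θ (pderiv (up a j) (f i))) else lr θ (up a) (f l) with hA
  have h1 : rho θ a (f i) (fun j => f (i.succAbove j)) =
      (Matrix.of (Fin.cons (A i) (fun j => A (i.succAbove j)) :
        Fin (n + 1) → Fin (n + 1) → 𝕂)).det := by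
    unfold rho
    congr 2
    funext l
    refine Fin.cases ?_ (fun l => ?_) l
    · simp [hA]
    · simp [hA, Fin.succAbove_ne]
  rw [h1, ← det_cons_succAbove]
  have h2 : (∏ j ∈ Finset.univ.erase i, θ (f j)) =
      ∏ j, (if j = i then 1 else θ (f j)) := by
    rw [← Finset.mul_prod_erase Finset.univ (fun j => if j = i then 1 else θ (f j))
      (Finset.mem_univ i), if_pos rfl, one_mul]
    apply Finset.prod_congr rfl
    intro j hj
    rw [if_neg (Finset.ne_of_mem_erase hj)]
  rw [h2, RingHom.map_det]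
  apply det_row_scale
  intro l j
  simp only [RingHom.mapMatrix_apply, Matrix.map_apply, Matrix.of_apply, hA]
  by_cases hl : l = i
  · subst hl; simp
  · simp only [hl, if_false, lr]
    rw [mul_div_cancel₀ _ (h l hl)]

variable [IsAlgClosed 𝕂]

/-- **Residue theorem** for logarithmic Jacobians. -/
theorem residue_formula [CharZero k] {φ : Pol k M →+* 𝕂} (hφ : Function.Injective φ)
    (a : Fin n → Fin M) (f : Fin (n + 1) → Pol k (M + 1)) (hirr : ∀ i, Irreducible (f i))
    (hne : ∀ i j, i ≠ j → ¬ f i ∣ f j) (hpos : 0 < ∑ i, (finSuccEquiv k M (f i)).natDegree) :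
    ∑ i : Fin (n + 1), (-1) ^ (i : ℕ) * TR φ a (f i) (fun j => f (i.succAbove j)) =
      ∑ i : Fin (n + 1), (-1) ^ (i : ℕ) * ((finSuccEquiv k M (f i)).natDegree : 𝕂) *
        J φ a (fun j => (finSuccEquiv k M (f (i.succAbove j))).leadingCoeff) := by
  classical
  set E := finSuccEquiv k M with hE
  set e : Fin (n + 1) → ℕ := fun i => (E (f i)).natDegree with he
  set F : Fin (n + 1) → 𝕂[X] := fun i => (E (f i)).map φ with hF
  have hEne : ∀ i, E (f i) ≠ 0 := fun i => (map_ne_zero_iff _ E.injective).mpr (hirr i).ne_zero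
  have hFne : ∀ i, F i ≠ 0 := fun i => map_ne_zero_of_injective φ hφ (hirr i).ne_zero
  have hFdeg : ∀ i, (F i).natDegree = e i := fun i => natDegree_map_eq_of_injective hφ _
  have hFlc : ∀ i, (F i).leadingCoeff = φ (E (f i)).leadingCoeff := fun i =>
    leadingCoeff_map_of_injective hφ _
  have hLne : ∀ i, φ (E (f i)).leadingCoeff ≠ 0 := by
    intro i; rw [← hFlc]; exact leadingCoeff_ne_zero.mpr (hFne i)
  have hunit : ∀ i, e i = 0 → IsUnit (F i) := by
    intro i hi
    rw [eq_C_of_natDegree_eq_zero ((hFdeg i).trans hi), isUnit_C, isUnit_iff_ne_zero]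
    intro h0
    apply hFne i
    rw [eq_C_of_natDegree_eq_zero ((hFdeg i).trans hi), h0, C_0]
  have hsep : ∀ i, (F i).Separable := by
    intro i
    rcases Nat.eq_zero_or_pos (e i) with h0 | h0
    · exact isCoprime_unit_left (hunit i h0)
    · exact separable_map hφ (hirr i) h0
  have hcop : Pairwise (Function.onFun IsCoprime F) := by
    intro i j hij
    rcases Nat.eq_zero_or_pos (e i) with h0 | h0
    · exact isCoprime_unit_left (hunit i h0)
    · exact isCoprime_map hφ (hirr i) h0 (hne i j hij)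
  -- the numerator
  set D : Pol k (M + 1) := Matrix.det (Matrix.of fun l j => pderiv (up a j) (f l)) with hD
  set P : 𝕂[X] := (E D).map φ with hP
  set B : Matrix (Fin (n + 1)) (Fin (n + 1)) 𝕂[X] := Matrix.of fun l j =>
    (Fin.cons X (fun _ => 1) : Fin (n + 1) → 𝕂[X]) j * (E (pderiv (up a j) (f l))).map φ with hB
  have hBdet : B.det = X * P := by
    refine (Matrix.det_mul_row (Fin.cons X (fun _ => 1) : Fin (n + 1) → 𝕂[X])
      (Matrix.of fun l j => (E (pderiv (up a j) (f l))).map φ)).trans ?_
    congr 1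
    · rw [Fin.prod_univ_succ]; simp
    · rw [hP, hD]
      have h1 := RingHom.map_det ((Polynomial.mapRingHom φ).comp
        (E : Pol k (M + 1) →+* (Pol k M)[X])) (Matrix.of fun l j => pderiv (up a j) (f l))
      simp only [RingHom.comp_apply, RingHom.coe_coe, Polynomial.coe_mapRingHom] at h1
      rw [h1]
      congr 1
  have hBdeg : ∀ i j, (B i j).natDegree ≤ e i ∧ (B i j).coeff (e i) =
      φ (E (f i)).leadingCoeff *
        (Fin.cons (e i : 𝕂) (lr φ a (E (f i)).leadingCoeff) : Fin (n + 1) → 𝕂) j := by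
    intro i j
    refine Fin.cases ?_ (fun j => ?_) j
    · simp only [hB, Matrix.of_apply, Fin.cons_zero, up_zero, finSuccEquiv_pderiv_zero, hE]
      rw [← hE]
      have h1 : (derivative (E (f i))).natDegree ≤ e i - 1 := natDegree_derivative_le _
      rcases Nat.eq_zero_or_pos (e i) with h0 | h0
      · have h2 : derivative (E (f i)) = 0 := by
          rw [eq_C_of_natDegree_eq_zero h0, derivative_C]
        rw [h2, h0]
        simp
      · constructor
        · refine natDegree_mul_le.trans ?_
          have h2 := (natDegree_map_le (p := derivative (E (f i))) (f := φ)).trans h1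
          rw [natDegree_X]
          omega
        · obtain ⟨m, hm⟩ := Nat.exists_eq_succ_of_ne_zero h0.ne'
          rw [hm, coeff_X_mul, coeff_map, coeff_derivative, map_mul, leadingCoeff]
          rw [show (E (f i)).natDegree = m + 1 from hm]
          push_cast
          simp
    · simp only [hB, Matrix.of_apply, Fin.cons_succ, up_succ, one_mul]
      constructor
      · refine natDegree_map_le.trans ?_
        exact natDegree_finSuccEquiv_pderiv_succ _ _
      · rw [coeff_map, coeff_finSuccEquiv_pderiv_succ, lr,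
          mul_div_cancel₀ _ (hLne i)]
        rfl
  obtain ⟨hdet1, hdet2⟩ := coeff_det_le B e fun i j => (hBdeg i j).1
  rw [hBdet] at hdet1 hdet2
  have hprodne : ∏ i, F i ≠ 0 := Finset.prod_ne_zero_iff.mpr fun i _ => hFne i
  have hQdeg : (∏ i, F i).natDegree = ∑ i, e i := by
    rw [natDegree_prod _ _ fun i _ => hFne i]
    exact Finset.sum_congr rfl fun i _ => hFdeg i
  have hPdeg : P.degree < (∏ i, F i).degree := by
    by_cases hP0 : P = 0
    · rw [hP0, degree_zero, bot_lt_iff_ne_bot]
      exact degree_ne_bot.mpr hprodne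
    · apply degree_lt_degree
      rw [hQdeg]
      rw [natDegree_mul X_ne_zero hP0, natDegree_X] at hdet1
      omega
  have key := residue_sum F hsep hcop P hPdeg
  rw [hQdeg] at key
  have hcoeff : P.coeff (∑ i, e i - 1) = (X * P).coeff (∑ i, e i) := by
    obtain ⟨m, hm⟩ := Nat.exists_eq_succ_of_ne_zero hpos.ne'
    have : ∑ i, e i = m + 1 := hm
    rw [this, coeff_X_mul, Nat.add_sub_cancel]
  rw [hcoeff, hdet2] at key
  have hdet3 : (Matrix.of fun i j => (B i j).coeff (e i)).det =
      (∏ i, φ (E (f i)).leadingCoeff) * Matrix.det (Matrix.of fun i =>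
        (Fin.cons (e i : 𝕂) (lr φ a (E (f i)).leadingCoeff) : Fin (n + 1) → 𝕂)) := by
    apply det_row_scale
    intro i j
    rw [Matrix.of_apply, (hBdeg i j).2, Matrix.of_apply]
  have hlcprod : ∏ i, (F i).leadingCoeff = ∏ i, φ (E (f i)).leadingCoeff :=
    Finset.prod_congr rfl fun i _ => hFlc i
  rw [hdet3, hlcprod, mul_div_cancel_left₀ _
    (Finset.prod_ne_zero_iff.mpr fun i _ => hLne i)] at key
  -- right hand side
  have hrhs : Matrix.det (Matrix.of fun i =>
        (Fin.cons (e i : 𝕂) (lr φ a (E (f i)).leadingCoeff) : Fin (n + 1) → 𝕂)) =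
      ∑ i : Fin (n + 1), (-1) ^ (i : ℕ) * ((E (f i)).natDegree : 𝕂) *
        J φ a (fun j => (E (f (i.succAbove j))).leadingCoeff) := by
    rw [Matrix.det_succ_column_zero]
    apply Finset.sum_congr rfl
    intro i _
    congr 1
  rw [← hrhs, ← key]
  -- left hand side
  apply Finset.sum_congr rfl
  intro i _
  rw [TR, Finset.mul_sum]
  apply Finset.sum_congr
  · rfl
  · intro ζ hζ
    have hroot : (F i).eval ζ = 0 := by
      have := (mem_rts φ ζ (hFne i)).mp hζ
      rwa [ext_apply] at this
    have hθ : ∀ j, j ≠ i → ext φ ζ (f j) ≠ 0 := by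
      intro j hj
      rw [ext_apply]
      intro h0
      obtain ⟨u, v, huv⟩ := hcop hj
      have := congrArg (eval ζ) huv
      rw [eval_add, eval_mul, eval_mul, hroot] at this
      simp only [hF] at this
      rw [h0, mul_zero, mul_zero, add_zero, eval_one] at this
      exact zero_ne_one this
    have h1 : P.eval ζ = ext φ ζ D := (ext_apply φ ζ D).symm
    have h2 : (derivative (F i)).eval ζ = ext φ ζ (pderiv 0 (f i)) := by
      rw [ext_apply, finSuccEquiv_pderiv_zero, ← derivative_map]
    have h3 : ∏ j ∈ Finset.univ.erase i, (F j).eval ζ =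
        ∏ j ∈ Finset.univ.erase i, ext φ ζ (f j) :=
      Finset.prod_congr rfl fun j _ => (ext_apply φ ζ (f j)).symm
    have h4 : ∏ j ∈ Finset.univ.erase i, ext φ ζ (f j) ≠ 0 :=
      Finset.prod_ne_zero_iff.mpr fun j hj => hθ j (Finset.ne_of_mem_erase hj)
    rw [h1, h2, h3, hD, rho_at_root (ext φ ζ) a f i hθ, mul_comm (ext φ ζ (pderiv 0 (f i))),
      mul_div_mul_left _ _ h4, mul_div_assoc]

end LF.BT
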